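import Pool.Agent.Run7.h61.MO.Kun

/-!
# The ranks of the cohomology groups of products of powers
-/

set_option autoImplicit false
set_option linter.unusedSectionVars false

namespace Run7.h61.MO

open Finset

section
variable {I : Type} [Fintype I] [DecidableEq I]

theorem gaussRank_eq {M : MvPolynomial I ℕ} {S : Finset (I →₀ ℕ)} (h : M.support ⊆ S) :
    gaussRank M = ∑ e ∈ S, M.coeff e * ∏ i, gm (e i) := by
  unfold gaussRank
  refine Finset.sum_subset h fun e _ he => ?_
  rw [MvPolynomial.notMem_support_iff.1 he, zero_mul]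

theorem gaussRank_sum {κ : Type} (T : Finset κ) (M : κ → MvPolynomial I ℕ) :
    gaussRank (∑ x ∈ T, M x) = ∑ x ∈ T, gaussRank (M x) := by
  classical
  rw [gaussRank_eq (M := ∑ x ∈ T, M x) (S := T.biUnion fun x => (M x).support) MvPolynomial.support_sum,
    Finset.sum_congr rfl fun x hx => gaussRank_eq (M := M x) (S := T.biUnion fun x => (M x).support)
      (Finset.subset_biUnion_of_mem (fun x => (M x).support) hx), Finset.sum_comm]
  refine Finset.sum_congr rfl fun e _ => ?_
  rw [MvPolynomial.coeff_sum, Finset.sum_mul]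

theorem gaussRank_monomial (e : I →₀ ℕ) (c : ℕ) : gaussRank (MvPolynomial.monomial e c) = c * ∏ i, gm (e i) := by
  classical
  rw [gaussRank_eq (S := {e}) MvPolynomial.support_monomial_subset, Finset.sum_singleton, MvPolynomial.coeff_monomial,
    if_pos rfl]

open Polynomial in
/-- **The rank of a cohomology group of a product of powers.** -/
theorem kunneth_rank (n : I → ℕ) (w : ℕ) : gaussRank (kunneth n w) =
    (∏ i, ∑ j ∈ range (n i + 1), C ((n i).choose j * gm j) * X ^ j * (1 + X ^ 2) ^ (n i - j) : ℕ[X]).coeff w := by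
  set p : (I → ℕ) → ℕ[X] := fun j => ∏ i, (C ((n i).choose (j i)) * X ^ (j i) * (1 + X ^ 2) ^ (n i - j i)) with hp
  have h1 : kunneth n w = ∑ j ∈ Fintype.piFinset (fun i => range (n i + 1)),
      MvPolynomial.monomial (Finsupp.equivFunOnFinite.symm j) ((p j).coeff w) := by
    unfold kunneth
    have h2 : (∏ i, (1 + C (MvPolynomial.X i) * X + X ^ 2) ^ n i : Polynomial (MvPolynomial I ℕ)) =
        ∑ j ∈ Fintype.piFinset (fun i => range (n i + 1)), C (∏ i, MvPolynomial.X i ^ j i) * (p j).map MvPolynomial.C := by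
      have h3 : ∀ i, ((1 + C (MvPolynomial.X i) * X + X ^ 2) ^ n i : Polynomial (MvPolynomial I ℕ)) =
          ∑ j ∈ range (n i + 1), ((C (MvPolynomial.X i) * X) ^ j * (1 + X ^ 2) ^ (n i - j) * (((n i).choose j : ℕ) : Polynomial (MvPolynomial I ℕ)) : Polynomial (MvPolynomial I ℕ)) := by
        intro i
        rw [← add_pow]
        congr 1
        ring
      rw [Finset.prod_congr rfl fun i _ => h3 i, Finset.prod_univ_sum]
      refine Finset.sum_congr rfl fun j _ => ?_
      rw [hp]
      simp only
      rw [Polynomial.map_prod, map_prod, ← Finset.prod_mul_distrib]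
      refine Finset.prod_congr rfl fun i _ => ?_
      have h6 : (C (MvPolynomial.C ((n i).choose (j i))) : Polynomial (MvPolynomial I ℕ)) =
          (((n i).choose (j i) : ℕ) : Polynomial (MvPolynomial I ℕ)) := by
        have h7 := map_natCast ((C : MvPolynomial I ℕ →+* Polynomial (MvPolynomial I ℕ)).comp
          (MvPolynomial.C : ℕ →+* MvPolynomial I ℕ)) ((n i).choose (j i))
        rw [Nat.cast_id] at h7
        exact h7
      simp only [Polynomial.map_mul, Polynomial.map_pow, Polynomial.map_C, Polynomial.map_X, Polynomial.map_add,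
        Polynomial.map_one, mul_pow, map_pow, h6]
      ring
    rw [h2, Polynomial.finsetSum_coeff]
    refine Finset.sum_congr rfl fun j _ => ?_
    rw [Polynomial.coeff_C_mul, Polynomial.coeff_map, mul_comm]
    have h4 : (∏ i, MvPolynomial.X i ^ j i : MvPolynomial I ℕ) = MvPolynomial.monomial (Finsupp.equivFunOnFinite.symm j) 1 := by
      rw [MvPolynomial.monomial_eq, MvPolynomial.C_1, one_mul, Finsupp.prod_fintype _ _ fun i => pow_zero _]
      rfl
    rw [h4, MvPolynomial.C_mul_monomial, mul_one]
  have h5 : (∏ i, ∑ j ∈ range (n i + 1), C ((n i).choose j * gm j) * X ^ j * (1 + X ^ 2) ^ (n i - j) : ℕ[X]) =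
      ∑ j ∈ Fintype.piFinset (fun i => range (n i + 1)), C (∏ i, gm (j i)) * p j := by
    rw [Finset.prod_univ_sum]
    refine Finset.sum_congr rfl fun j _ => ?_
    rw [hp]
    simp only
    rw [map_prod, ← Finset.prod_mul_distrib]
    refine Finset.prod_congr rfl fun i _ => ?_
    rw [C_mul]
    ring
  rw [h1, gaussRank_sum, h5, Polynomial.finsetSum_coeff]
  refine Finset.sum_congr rfl fun j _ => ?_
  rw [gaussRank_monomial, Polynomial.coeff_C_mul, mul_comm]
  rfl

end

end Run7.h61.MO
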