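import Pool.Agent.Run7.h61.MO.Rad
import Pool.Agent.Run7.h876.EN.Pts
import Pool.Agent.Run7.h876.EN.NS

/-!
# The moments of the character sums of the polynomials `U + ∑ t_n X ^ n`
-/

set_option autoImplicit false
set_option linter.unusedSectionVars false

namespace Run7.h61.MO

open Finset Polynomial
open Pool.Agent.H341R2.Sharp
open Run7.h876.EN

/-! ### tuples in which every element appears an even number of times -/

/-- every element appears an even number of times -/
def EvT {α : Type} [DecidableEq α] {m : ℕ} (p : Fin m → α) : Prop := ∀ y, Even (#{j | p j = y})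

theorem prod_ev {α : Type} [DecidableEq α] {m : ℕ} {p : Fin m → α} (hp : EvT p) (g : α → ℝ)
    (hg : ∀ j, g (p j) ^ 2 = 1) : ∏ j, g (p j) = 1 := by
  rw [Finset.prod_comp g p]
  refine Finset.prod_eq_one fun y hy => ?_
  obtain ⟨j, _, rfl⟩ := Finset.mem_image.1 hy
  obtain ⟨r, hr⟩ := hp (p j)
  rw [hr, ← two_mul, pow_mul, hg, one_pow]

theorem exists_odd {α : Type} [DecidableEq α] {m : ℕ} {p : Fin m → α} (hp : ¬ EvT p) : ∃ y, Odd (#{j | p j = y}) := by
  unfold EvT at hp
  push Not at hp
  obtain ⟨y, hy⟩ := hp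
  exact ⟨y, Nat.not_even_iff_odd.1 hy⟩

open Classical in
theorem sum_sg {α : Type} [Fintype α] [DecidableEq α] {m : ℕ} (p : Fin m → α) :
    ∑ ε : α → Bool, ∏ j, sg (ε (p j)) = if EvT p then 2 ^ (Fintype.card α) else 0 := by
  have hsq : ∀ b, sg b ^ 2 = 1 := by
    intro b
    unfold sg
    split_ifs <;> norm_num
  split_ifs with h
  · rw [Finset.sum_congr rfl fun ε _ => prod_ev h (fun x => sg (ε x)) fun j => hsq _]
    simp
  · obtain ⟨y, hy⟩ := exists_odd h
    have hyi : y ∈ univ.image p := by
      by_contra hn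
      rw [Finset.card_eq_zero.2 (Finset.filter_eq_empty_iff.2 fun j _ hj =>
        hn (Finset.mem_image.2 ⟨j, Finset.mem_univ _, hj⟩))] at hy
      exact (by decide : ¬ Odd 0) hy
    have hinv : Function.Involutive (fun ε : α → Bool => Function.update ε y (!ε y)) := by
      intro ε
      simp
    have key : ∀ ε : α → Bool, ∏ j, sg (Function.update ε y (!ε y) (p j)) = -∏ j, sg (ε (p j)) := by
      intro ε
      rw [Finset.prod_comp (fun x => sg (Function.update ε y (!ε y) x)) p, Finset.prod_comp (fun x => sg (ε x)) p,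
        ← Finset.mul_prod_erase _ _ hyi, ← Finset.mul_prod_erase _ _ hyi, ← neg_mul]
      congr 1
      · rw [Function.update_self, show sg (!ε y) = -sg (ε y) from by unfold sg; cases ε y <;> simp, hy.neg_pow]
      · refine Finset.prod_congr rfl fun x hx => ?_
        rw [Function.update_of_ne (Finset.ne_of_mem_erase hx)]
    have h1 : ∑ ε : α → Bool, ∏ j, sg (ε (p j)) = ∑ ε : α → Bool, ∏ j, sg (Function.update ε y (!ε y) (p j)) :=
      (Fintype.sum_equiv hinv.toPerm _ _ fun ε => rfl).symm
    rw [Finset.sum_congr rfl fun ε _ => key ε, Finset.sum_neg_distrib] at h1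
    linarith

open Classical in
/-- The number of the tuples in which every element appears an even number of times. -/
theorem card_ev (α : Type) [Fintype α] [DecidableEq α] (m : ℕ) :
    ∑ p : Fin m → α, (if EvT p then (1 : ℝ) else 0) = Rm (Fintype.card α) m := by
  have h1 := sum_signs α m
  rw [Finset.sum_congr rfl fun ε _ => Fintype.sum_pow (fun x => sg (ε x)) m, Finset.sum_comm,
    Finset.sum_congr rfl fun p _ => sum_sg p] at h1
  have h2 : (2 : ℝ) ^ (Fintype.card α) ≠ 0 := by positivity
  have h3 : ∑ p : Fin m → α, (if EvT p then (2 : ℝ) ^ (Fintype.card α) else 0) =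
      2 ^ (Fintype.card α) * ∑ p : Fin m → α, (if EvT p then (1 : ℝ) else 0) := by
    rw [Finset.mul_sum]
    refine Finset.sum_congr rfl fun p _ => ?_
    split_ifs <;> simp
  rw [h3] at h1
  exact mul_left_cancel₀ h2 h1

/-! ### the family -/

section
variable {k : Type} [Field k] [Fintype k] [DecidableEq k]

/-- The polynomial `U + ∑ t_n X ^ n`. -/
noncomputable def gfam (N : ℕ) (U : k[X]) (t : Fin N → k) : k[X] := U + ∑ n : Fin N, C (t n) * X ^ (n : ℕ)

theorem gfam_add {N : ℕ} (U : k[X]) (t c : Fin N → k) :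
    gfam N U (t + c) = gfam N U t + ∑ n : Fin N, C (c n) * X ^ (n : ℕ) := by
  unfold gfam
  simp only [Pi.add_apply, C_add, add_mul, Finset.sum_add_distrib, add_assoc]

theorem sum_coeff {N : ℕ} {L : k[X]} (hL : L.natDegree < N) (c : k) :
    ∑ n : Fin N, C ((c • fun i : Fin N => L.coeff i) n) * X ^ (n : ℕ) = C c * L := by
  conv_rhs => rw [L.as_sum_range' N hL]
  rw [Finset.sum_range, Finset.mul_sum]
  refine Finset.sum_congr rfl fun n _ => ?_
  rw [Pi.smul_apply, smul_eq_mul, C_mul, mul_assoc, C_mul_X_pow_eq_monomial]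

theorem gfam_shift {N : ℕ} (U : k[X]) {L : k[X]} (hL : L.natDegree < N) (t : Fin N → k) (c : k) :
    gfam N U (t + c • fun i : Fin N => L.coeff i) = gfam N U t + C c * L := by
  rw [gfam_add, sum_coeff hL]

theorem sum_shift {N : ℕ} {R : Type} [CommRing R] (F : (Fin N → k) → R) (c₀ : Fin N → k) :
    (Fintype.card k : R) * ∑ t, F t = ∑ t, ∑ c : k, F (t + c • c₀) := by
  rw [Finset.sum_comm]
  have h : ∀ c : k, ∑ t, F (t + c • c₀) = ∑ t, F t := fun c =>
    Fintype.sum_equiv (Equiv.addRight (c • c₀)) _ _ fun t => rfl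
  rw [Finset.sum_congr rfl fun c _ => h c, Finset.sum_const, Finset.card_univ, nsmul_eq_mul]

theorem chi_pow_odd {n : ℕ} (hn : Odd n) (z : k) : (quadraticChar k z) ^ n = quadraticChar k z := by
  by_cases hz : z = 0
  · rw [hz, MulChar.map_zero, zero_pow]
    rintro rfl
    exact (by decide : ¬ Odd 0) hn
  · rcases quadraticChar_dichotomy hz with h | h
    · rw [h, one_pow]
    · rw [h, hn.neg_one_pow]

/-- If some point appears an odd number of times then the mean value is zero. -/
theorem sum_odd (hk : ringChar k ≠ 2) {N : ℕ} (U : k[X]) {m : ℕ} (hm : m ≤ N) (p : Fin m → k) {y : k}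
    (hy : Odd (#{j | p j = y})) :
    ∑ t : Fin N → k, ∏ j, quadraticChar k ((gfam N U t).eval (p j)) = 0 := by
  set s : Finset k := univ.image p with hs
  have hyi : y ∈ s := by
    by_contra hn
    rw [Finset.card_eq_zero.2 (Finset.filter_eq_empty_iff.2 fun j _ hj =>
      hn (Finset.mem_image.2 ⟨j, Finset.mem_univ _, hj⟩))] at hy
    exact (by decide : ¬ Odd 0) hy
  have hinj : Set.InjOn (id : k → k) s := fun a _ b _ h => h
  set L := Lagrange.basis s id y with hL
  have hcard : s.card ≤ m := by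
    have := Finset.card_image_le (s := (univ : Finset (Fin m))) (f := p)
    rwa [Finset.card_univ, Fintype.card_fin] at this
  have hpos : 0 < s.card := Finset.card_pos.2 ⟨y, hyi⟩
  have hLd : L.natDegree < N := by
    rw [hL, Lagrange.natDegree_basis hinj hyi]
    omega
  have hLy : L.eval y = 1 := Lagrange.eval_basis_self hinj hyi
  have hLx : ∀ x ∈ s, x ≠ y → L.eval x = 0 := fun x hx hxy => Lagrange.eval_basis_of_ne (v := id) (Ne.symm hxy) hx
  have hq : (Fintype.card k : ℤ) ≠ 0 := by exact_mod_cast Fintype.card_ne_zero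
  have h1 := sum_shift (R := ℤ) (fun t : Fin N → k => ∏ j, quadraticChar k ((gfam N U t).eval (p j)))
    (fun i : Fin N => L.coeff i)
  have h2 : ∀ t : Fin N → k, ∑ c : k, ∏ j, quadraticChar k ((gfam N U (t + c • fun i : Fin N => L.coeff i)).eval (p j)) = 0 := by
    intro t
    have h3 : ∀ c : k, ∏ j, quadraticChar k ((gfam N U (t + c • fun i : Fin N => L.coeff i)).eval (p j)) =
        quadraticChar k ((gfam N U t).eval y + c) *
          ∏ x ∈ s.erase y, quadraticChar k ((gfam N U t).eval x) ^ #{j | p j = x} := by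
      intro c
      rw [Finset.prod_comp (fun x => quadraticChar k ((gfam N U (t + c • fun i : Fin N => L.coeff i)).eval x)) p,
        ← hs, ← Finset.mul_prod_erase _ _ hyi, chi_pow_odd hy, gfam_shift U hLd]
      congr 1
      · rw [eval_add, eval_mul, eval_C, hLy, mul_one]
      · refine Finset.prod_congr rfl fun x hx => ?_
        rw [eval_add, eval_mul, hLx x (Finset.mem_of_mem_erase hx) (Finset.ne_of_mem_erase hx), mul_zero, add_zero]
    rw [Finset.sum_congr rfl fun c _ => h3 c, ← Finset.sum_mul]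
    have h4 : ∑ c : k, quadraticChar k ((gfam N U t).eval y + c) = 0 := by
      rw [← quadraticChar_sum_zero hk]
      exact Fintype.sum_equiv (Equiv.addLeft ((gfam N U t).eval y)) _ _ fun c => rfl
    rw [h4, zero_mul]
  rw [Finset.sum_congr rfl fun t _ => h2 t, Finset.sum_const_zero] at h1
  exact (mul_eq_zero.1 h1).resolve_left hq

/-- The number of the polynomials which vanish at a point. -/
theorem card_zero {N : ℕ} (hN : 1 ≤ N) (U : k[X]) (x : k) :
    (Fintype.card k : ℝ) * ∑ t : Fin N → k, (if (gfam N U t).eval x = 0 then (1 : ℝ) else 0) = (Fintype.card k : ℝ) ^ N := by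
  have h1 := sum_shift (R := ℝ) (fun t : Fin N → k => if (gfam N U t).eval x = 0 then (1 : ℝ) else 0)
    (fun i : Fin N => (1 : k[X]).coeff i)
  rw [h1]
  have hd : (1 : k[X]).natDegree < N := by rw [natDegree_one]; omega
  have h2 : ∀ t : Fin N → k, ∑ c : k, (if (gfam N U (t + c • fun i : Fin N => (1 : k[X]).coeff i)).eval x = 0 then (1 : ℝ) else 0) = 1 := by
    intro t
    rw [Finset.sum_congr rfl fun c _ => by rw [gfam_shift U hd, eval_add, eval_mul, eval_C, eval_one, mul_one]]
    rw [Finset.sum_ite, Finset.sum_const_zero, add_zero, Finset.sum_const, nsmul_eq_mul, mul_one]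
    have : (Finset.univ.filter fun c : k => (gfam N U t).eval x + c = 0) = {-(gfam N U t).eval x} := by
      ext c
      simp only [Finset.mem_filter, Finset.mem_univ, true_and, Finset.mem_singleton]
      constructor
      · intro h; linear_combination h
      · intro h; rw [h]; ring
    rw [this]; simp
  rw [Finset.sum_congr rfl fun t _ => h2 t, Finset.sum_const, Finset.card_univ, Fintype.card_fun, Fintype.card_fin,
    nsmul_eq_mul, mul_one]
  push_cast
  rfl

theorem sum_evt {N : ℕ} (U : k[X]) {m : ℕ} (hm : m ≤ N) (p : Fin m → k) (hp : EvT p) :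
    |(∑ t : Fin N → k, ∏ j, (quadraticChar k ((gfam N U t).eval (p j)) : ℝ)) / (Fintype.card k : ℝ) ^ N - 1| ≤
      m / Fintype.card k := by
  classical
  have hq : (0 : ℝ) < Fintype.card k := by exact_mod_cast Fintype.card_pos
  have hqN : (0 : ℝ) < (Fintype.card k : ℝ) ^ N := by positivity
  rcases Nat.eq_zero_or_pos m with h0 | h0
  · subst h0
    simp only [Finset.univ_eq_empty, Finset.prod_empty, Finset.sum_const, Finset.card_univ, Fintype.card_fun,
      Fintype.card_fin, nsmul_eq_mul, mul_one]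
    push_cast
    rw [div_self hqN.ne']
    simp
  have h1 : ∀ t : Fin N → k, 0 ≤ 1 - ∏ j, (quadraticChar k ((gfam N U t).eval (p j)) : ℝ) ∧
      1 - ∏ j, (quadraticChar k ((gfam N U t).eval (p j)) : ℝ) ≤ ∑ j, if (gfam N U t).eval (p j) = 0 then (1 : ℝ) else 0 := by
    intro t
    by_cases hz : ∃ j, (gfam N U t).eval (p j) = 0
    · obtain ⟨j, hj⟩ := hz
      rw [Finset.prod_eq_zero (Finset.mem_univ j) (by rw [hj, MulChar.map_zero, Int.cast_zero]), sub_zero]
      refine ⟨zero_le_one, ?_⟩
      have := Finset.single_le_sum (f := fun j => if (gfam N U t).eval (p j) = 0 then (1 : ℝ) else 0)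
        (fun i _ => by positivity) (Finset.mem_univ j)
      simpa [hj] using this
    · push Not at hz
      rw [prod_ev hp (fun x => (quadraticChar k ((gfam N U t).eval x) : ℝ)) (fun j => by
        exact_mod_cast quadraticChar_sq_one (hz j)), sub_self]
      exact ⟨le_rfl, by positivity⟩
  have hsum1 : (∑ t : Fin N → k, (1 : ℝ)) = (Fintype.card k : ℝ) ^ N := by
    rw [Finset.sum_const, Finset.card_univ, Fintype.card_fun, Fintype.card_fin, nsmul_eq_mul, mul_one]
    push_cast; rfl
  have h2 : (∑ t : Fin N → k, ∏ j, (quadraticChar k ((gfam N U t).eval (p j)) : ℝ)) / (Fintype.card k : ℝ) ^ N - 1 =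
      -((∑ t : Fin N → k, (1 - ∏ j, (quadraticChar k ((gfam N U t).eval (p j)) : ℝ))) / (Fintype.card k : ℝ) ^ N) := by
    rw [Finset.sum_sub_distrib, hsum1]
    field_simp
    ring
  rw [h2, abs_neg, abs_div, abs_of_pos hqN, abs_of_nonneg (Finset.sum_nonneg fun t _ => (h1 t).1), div_le_div_iff₀ hqN hq]
  have h3 : ∑ t : Fin N → k, (1 - ∏ j, (quadraticChar k ((gfam N U t).eval (p j)) : ℝ)) ≤
      ∑ j, ∑ t : Fin N → k, if (gfam N U t).eval (p j) = 0 then (1 : ℝ) else 0 := by
    rw [Finset.sum_comm]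
    exact Finset.sum_le_sum fun t _ => (h1 t).2
  have h4 : (∑ j : Fin m, ∑ t : Fin N → k, if (gfam N U t).eval (p j) = 0 then (1 : ℝ) else 0) * Fintype.card k =
      m * (Fintype.card k : ℝ) ^ N := by
    rw [mul_comm, Finset.mul_sum, Finset.sum_congr rfl fun j _ => card_zero (by omega : 1 ≤ N) U (p j), Finset.sum_const,
      Finset.card_univ, Fintype.card_fin, nsmul_eq_mul]
  rw [← h4]
  exact mul_le_mul_of_nonneg_right h3 hq.le

/-- **The moments of the character sums.** -/
theorem mom_S (hk : ringChar k ≠ 2) {N : ℕ} (U : k[X]) {m : ℕ} (hm : m ≤ N) :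
    |(∑ t : Fin N → k, (∑ x : k, (quadraticChar k ((gfam N U t).eval x) : ℝ)) ^ m) / (Fintype.card k : ℝ) ^ N -
      Rm (Fintype.card k) m| ≤ m / Fintype.card k * Rm (Fintype.card k) m := by
  classical
  have h1 : (∑ t : Fin N → k, (∑ x : k, (quadraticChar k ((gfam N U t).eval x) : ℝ)) ^ m) / (Fintype.card k : ℝ) ^ N =
      ∑ p : Fin m → k, (∑ t : Fin N → k, ∏ j, (quadraticChar k ((gfam N U t).eval (p j)) : ℝ)) / (Fintype.card k : ℝ) ^ N := by
    rw [← Finset.sum_div, Finset.sum_comm]
    congr 1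
    refine Finset.sum_congr rfl fun t _ => ?_
    rw [Fintype.sum_pow]
  rw [h1, ← card_ev k m, ← Finset.sum_sub_distrib, Finset.mul_sum]
  refine (Finset.abs_sum_le_sum_abs _ _).trans (Finset.sum_le_sum fun p _ => ?_)
  split_ifs with hp
  · rw [mul_one]
    exact sum_evt U hm p hp
  · obtain ⟨y, hy⟩ := exists_odd hp
    have h2 := sum_odd hk U hm p hy
    have h3 : ∑ t : Fin N → k, ∏ j, (quadraticChar k ((gfam N U t).eval (p j)) : ℝ) = 0 := by
      exact_mod_cast h2
    rw [h3]
    simp

end

end Run7.h61.MO
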