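import Pool.Agent.Run7.h61.MO.Defs

/-!
# The polynomials of the cohomology groups of products of powers of curves
-/

set_option autoImplicit false
set_option linter.unusedSectionVars false

namespace Run7.h61.MO

open Finset Polynomial

section
variable {I : Type}

/-- Polynomials in `T` with coefficients in `ℕ[X_i]` whose coefficient of `T^n` has weight `n`, and in
which the variable `X_i` appears at most to the power `b i`. -/
def Gr (b : I → ℕ) (p : Polynomial (MvPolynomial I ℕ)) : Prop :=
  ∀ n, ∀ e ∈ (p.coeff n).support, (e.degree ≤ n ∧ Even (n - e.degree)) ∧ ∀ i, e i ≤ b i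

theorem gr_one : Gr (fun _ : I => 0) (1 : Polynomial (MvPolynomial I ℕ)) := by
  classical
  intro n e he
  rw [Polynomial.coeff_one] at he
  by_cases h : n = 0
  · rw [if_pos h, MvPolynomial.mem_support_iff, MvPolynomial.coeff_one] at he
    by_cases h2 : 0 = e
    · subst h2
      subst h
      simp
    · rw [if_neg h2] at he
      exact absurd rfl he
  · rw [if_neg h] at he
    simp at he

theorem Gr.mul {b c : I → ℕ} {p q : Polynomial (MvPolynomial I ℕ)} (hp : Gr b p) (hq : Gr c q) :
    Gr (fun i => b i + c i) (p * q) := by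
  classical
  intro n e he
  rw [Polynomial.coeff_mul] at he
  obtain ⟨x, hx, he1⟩ : ∃ x ∈ Finset.HasAntidiagonal.antidiagonal n, e ∈ (p.coeff x.1 * q.coeff x.2).support := by
    by_contra hcon
    push Not at hcon
    rw [MvPolynomial.mem_support_iff] at he
    apply he
    rw [MvPolynomial.coeff_sum]
    exact Finset.sum_eq_zero fun x hx => MvPolynomial.notMem_support_iff.1 (hcon x hx)
  rw [Finset.HasAntidiagonal.mem_antidiagonal] at hx
  have h2 := MvPolynomial.support_mul _ _ he1
  obtain ⟨e1, h3, e2, h4, h5⟩ := Finset.mem_add.1 h2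
  obtain ⟨⟨a1, a2⟩, a3⟩ := hp _ _ h3
  obtain ⟨⟨b1, b2⟩, b3⟩ := hq _ _ h4
  rw [← h5, map_add]
  refine ⟨⟨by omega, ?_⟩, fun i => ?_⟩
  · have : n - (e1.degree + e2.degree) = (x.1 - e1.degree) + (x.2 - e2.degree) := by omega
    rw [this]
    exact a2.add b2
  · rw [Finsupp.add_apply]
    exact add_le_add (a3 i) (b3 i)

theorem Gr.mono {b c : I → ℕ} {p : Polynomial (MvPolynomial I ℕ)} (hp : Gr b p) (h : ∀ i, b i ≤ c i) : Gr c p :=
  fun n e he => ⟨(hp n e he).1, fun i => ((hp n e he).2 i).trans (h i)⟩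

/-- the factor of the curve `C_i` -/
noncomputable def base (i : I) : Polynomial (MvPolynomial I ℕ) :=
  1 + Polynomial.C (MvPolynomial.X i) * Polynomial.X + Polynomial.X ^ 2

theorem base_coeff (i : I) (n : ℕ) : (base i).coeff n =
    if n = 0 then 1 else if n = 1 then MvPolynomial.X i else if n = 2 then 1 else 0 := by
  unfold base
  rw [coeff_add, coeff_add, coeff_one, coeff_C_mul, coeff_X, coeff_X_pow]
  rcases n with _ | _ | _ | n
  · simp
  · simp
  · simp
  · simp

open Classical in
theorem gr_base (i : I) : Gr (fun j => if j = i then 1 else 0) (base i) := by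
  intro n e he
  rw [base_coeff] at he
  have hone : ∀ e ∈ (1 : MvPolynomial I ℕ).support, e = 0 := by
    intro e he
    rw [MvPolynomial.mem_support_iff, MvPolynomial.coeff_one] at he
    by_contra h
    rw [if_neg (Ne.symm h)] at he
    exact he rfl
  by_cases h0 : n = 0
  · rw [if_pos h0] at he
    rw [hone e he]
    subst h0
    simp
  rw [if_neg h0] at he
  by_cases h1 : n = 1
  · rw [if_pos h1, MvPolynomial.support_X, Finset.mem_singleton] at he
    subst he
    subst h1
    refine ⟨by simp, fun j => ?_⟩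
    rw [Finsupp.single_apply]
    by_cases h3 : i = j
    · rw [if_pos h3]
      simp only [if_pos h3.symm, le_refl]
    · rw [if_neg h3]
      exact Nat.zero_le _
  rw [if_neg h1] at he
  by_cases h2 : n = 2
  · rw [if_pos h2] at he
    rw [hone e he, h2, map_zero]
    exact ⟨⟨by norm_num, ⟨1, rfl⟩⟩, fun j => Nat.zero_le _⟩
  · rw [if_neg h2] at he
    simp at he

theorem gr_pow {b : I → ℕ} {p : Polynomial (MvPolynomial I ℕ)} (hp : Gr b p) (n : ℕ) : Gr (fun i => n * b i) (p ^ n) := by
  induction n with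
  | zero => rw [pow_zero]; exact gr_one.mono fun i => by simp
  | succ n ih => rw [pow_succ]; exact (ih.mul hp).mono fun i => by rw [Nat.succ_mul]

variable [Fintype I]

open Classical in
theorem gr_prod (n : I → ℕ) : Gr n (∏ i, base i ^ n i) := by
  have h : ∀ s : Finset I, Gr (fun j => if j ∈ s then n j else 0) (∏ i ∈ s, base i ^ n i) := by
    intro s
    induction s using Finset.induction_on with
    | empty => simpa using gr_one
    | insert a s ha ih =>
      rw [Finset.prod_insert ha]
      refine ((gr_pow (gr_base a) (n a)).mul ih).mono fun j => ?_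
      by_cases hj : j = a
      · subst hj; simp [ha]
      · simp [hj]
  exact (h univ).mono fun i => by simp

/-- **The weight of the cohomology groups of products.** -/
theorem kunneth_isWt (n : I → ℕ) (w : ℕ) : IsWt w (kunneth n w) := fun e he => (gr_prod n w e he).1

theorem kunneth_le (n : I → ℕ) (w : ℕ) : ∀ e ∈ (kunneth n w).support, ∀ i, e i ≤ n i := fun e he => (gr_prod n w e he).2

/-- the traces with real numbers -/
theorem mtr_real {w : ℕ} {M : MvPolynomial I ℕ} (hM : IsWt w M) (τ : I → ℤ) {Q : ℤ} (hQ : 0 < Q) :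
    (mtr w M τ Q : ℝ) = Real.sqrt Q ^ w *
      MvPolynomial.eval₂ (Nat.castRingHom ℝ) (fun i => (τ i : ℝ) / Real.sqrt Q) M := by
  have hQ' : (0 : ℝ) < Q := by exact_mod_cast hQ
  have hs : 0 < Real.sqrt Q := Real.sqrt_pos.2 hQ'
  unfold mtr
  rw [MvPolynomial.eval₂_eq, Finset.mul_sum]
  push_cast
  refine Finset.sum_congr rfl fun e he => ?_
  obtain ⟨h1, r, h2⟩ := hM e he
  have h3 : (w - e.degree) / 2 = r := by omega
  have h4 : w = 2 * r + e.degree := by omega
  rw [h3]
  have h5 : ∏ i, ((τ i : ℝ) / Real.sqrt Q) ^ e i = (∏ i, (τ i : ℝ) ^ e i) / Real.sqrt Q ^ e.degree := by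
    rw [Finsupp.degree_eq_sum, ← Finset.prod_pow_eq_pow_sum, ← Finset.prod_div_distrib]
    exact Finset.prod_congr rfl fun i _ => div_pow _ _ _
  have h6 : Real.sqrt Q ^ w = (Q : ℝ) ^ r * Real.sqrt Q ^ e.degree := by
    conv_lhs => rw [h4]
    rw [pow_add, pow_mul, Real.sq_sqrt hQ'.le]
  have h7 : ∏ i ∈ e.support, ((τ i : ℝ) / Real.sqrt Q) ^ e i = ∏ i, ((τ i : ℝ) / Real.sqrt Q) ^ e i :=
    Finset.prod_subset (Finset.subset_univ _) fun i _ hi => by
      rw [Finsupp.notMem_support_iff.1 hi, pow_zero]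
  rw [h7, h5, h6]
  field_simp

/-- **The traces of a Frobenius on the cohomology of a product of powers.** -/
theorem kunneth_trace (n : I → ℕ) (w : ℕ) (τ : I → ℤ) {Q : ℤ} (hQ : 0 < Q) :
    mtr w (kunneth n w) τ Q =
      (∏ i, (1 + Polynomial.C (τ i) * Polynomial.X + Polynomial.C Q * Polynomial.X ^ 2) ^ n i : Polynomial ℤ).coeff w := by
  have hQ' : (0 : ℝ) < Q := by exact_mod_cast hQ
  have hs : 0 < Real.sqrt Q := Real.sqrt_pos.2 hQ'
  have h1 := mtr_real (kunneth_isWt n w) τ hQ
  -- the homomorphism which substitutes the normalised traces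
  set φ : MvPolynomial I ℕ →+* ℝ := MvPolynomial.eval₂Hom (Nat.castRingHom ℝ) (fun i => (τ i : ℝ) / Real.sqrt Q) with hφ
  have h2 : MvPolynomial.eval₂ (Nat.castRingHom ℝ) (fun i => (τ i : ℝ) / Real.sqrt Q) (kunneth n w) =
      ((∏ i, (1 + Polynomial.C ((τ i : ℝ) / Real.sqrt Q) * Polynomial.X + Polynomial.X ^ 2) ^ n i : Polynomial ℝ)).coeff w := by
    have e1 : MvPolynomial.eval₂ (Nat.castRingHom ℝ) (fun i => (τ i : ℝ) / Real.sqrt Q) (kunneth n w) = φ (kunneth n w) := rfl
    rw [e1]
    unfold kunneth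
    rw [← Polynomial.coeff_map]
    congr 1
    rw [Polynomial.map_prod]
    refine Finset.prod_congr rfl fun i _ => ?_
    rw [Polynomial.map_pow, Polynomial.map_add, Polynomial.map_add, Polynomial.map_mul, Polynomial.map_C, Polynomial.map_X,
      Polynomial.map_pow, Polynomial.map_X, Polynomial.map_one]
    congr 5
    rw [hφ]
    simp
  have h3 : (((∏ i, (1 + Polynomial.C (τ i) * Polynomial.X + Polynomial.C Q * Polynomial.X ^ 2) ^ n i : Polynomial ℤ)).coeff w : ℝ) =
      Real.sqrt Q ^ w * ((∏ i, (1 + Polynomial.C ((τ i : ℝ) / Real.sqrt Q) * Polynomial.X + Polynomial.X ^ 2) ^ n i : Polynomial ℝ)).coeff w := by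
    have e1 : ((∏ i, (1 + Polynomial.C (τ i) * Polynomial.X + Polynomial.C Q * Polynomial.X ^ 2) ^ n i : Polynomial ℤ)).map (Int.castRingHom ℝ) =
        ((∏ i, (1 + Polynomial.C ((τ i : ℝ) / Real.sqrt Q) * Polynomial.X + Polynomial.X ^ 2) ^ n i : Polynomial ℝ)).comp
          (Polynomial.C (Real.sqrt Q) * Polynomial.X) := by
      rw [Polynomial.map_prod, Polynomial.prod_comp]
      refine Finset.prod_congr rfl fun i _ => ?_
      rw [Polynomial.map_pow, Polynomial.pow_comp]
      congr 1
      simp only [Polynomial.map_add, Polynomial.map_mul, Polynomial.map_one, Polynomial.map_C, Polynomial.map_X, Polynomial.map_pow,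
        Polynomial.add_comp, Polynomial.mul_comp, Polynomial.one_comp, Polynomial.C_comp, Polynomial.X_comp, Polynomial.pow_comp,
        eq_intCast (Int.castRingHom ℝ)]
      have e2 : (Polynomial.C ((τ i : ℝ) / Real.sqrt Q) : Polynomial ℝ) * (Polynomial.C (Real.sqrt Q) * Polynomial.X) =
          Polynomial.C (τ i : ℝ) * Polynomial.X := by
        rw [← mul_assoc, ← Polynomial.C_mul, div_mul_cancel₀ _ hs.ne']
      have e3 : ((Polynomial.C (Real.sqrt Q) : Polynomial ℝ) * Polynomial.X) ^ 2 = Polynomial.C (Q : ℝ) * Polynomial.X ^ 2 := by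
        rw [mul_pow, ← Polynomial.C_pow, Real.sq_sqrt hQ'.le]
      rw [e2, e3]
    have e4 : (((∏ i, (1 + Polynomial.C (τ i) * Polynomial.X + Polynomial.C Q * Polynomial.X ^ 2) ^ n i : Polynomial ℤ)).coeff w : ℝ) =
        (((∏ i, (1 + Polynomial.C (τ i) * Polynomial.X + Polynomial.C Q * Polynomial.X ^ 2) ^ n i : Polynomial ℤ)).map (Int.castRingHom ℝ)).coeff w := by
      rw [Polynomial.coeff_map]
      rfl
    rw [e4, e1, Polynomial.comp_C_mul_X_coeff]
    ring
  have h4 : (mtr w (kunneth n w) τ Q : ℝ) =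
      (((∏ i, (1 + Polynomial.C (τ i) * Polynomial.X + Polynomial.C Q * Polynomial.X ^ 2) ^ n i : Polynomial ℤ)).coeff w : ℝ) := by
    rw [h1, h2, h3]
  exact_mod_cast h4

/-- In odd weight the rank is zero. -/
theorem gaussRank_odd {w : ℕ} (hw : Odd w) {M : MvPolynomial I ℕ} (hM : IsWt w M) : gaussRank M = 0 := by
  unfold gaussRank
  refine Finset.sum_eq_zero fun e he => ?_
  obtain ⟨h1, h2⟩ := hM e he
  obtain ⟨i, hi⟩ : ∃ i, Odd (e i) := by
    by_contra hcon
    push Not at hcon
    have h3 : Even e.degree := by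
      rw [Finsupp.degree_eq_sum]
      exact Finset.even_sum _ fun i _ => Nat.not_odd_iff_even.1 (hcon i)
    have h4 : Even w := by
      rw [← Nat.sub_add_cancel h1]
      exact h2.add h3
    exact (Nat.not_even_iff_odd.2 hw) h4
  rw [Finset.prod_eq_zero (Finset.mem_univ i) (gm_odd hi), mul_zero]

end

end Run7.h61.MO
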