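import Pool.Agent.Run7.h61.MO.Mom
import Pool.Agent.Run7.h61.MO.Kun
import Pool.Agent.Run7.h61.TA.Abs2

/-!
# The local mean values of the traces of Frobenius on motives of products of curves
-/

set_option autoImplicit false
set_option linter.unusedSectionVars false

namespace Run7.h61.MO

open NumberField IsDedekindDomain Polynomial Finset Filter Topology
open Run7.h876.MM (nv kv two_le_nv nv_pos avg card_kv xv norm_xv instFieldKv instFintypeKv instDecKv ring_char_two)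
open Run7.h876.EN
open Run7.h876.HY (frobTrace GoodAt partialZeta)

/-! ### independence -/

theorem sum_sigma {I : Type} [Fintype I] [DecidableEq I] {J : I → Type} [∀ i, Fintype (J i)] [∀ i, DecidableEq (J i)]
    {k : Type} [Fintype k] [DecidableEq k] (φ : ∀ i, (J i → k) → ℝ) :
    ∑ t : (Σ i, J i) → k, ∏ i, φ i (fun j => t ⟨i, j⟩) = ∏ i, ∑ s : J i → k, φ i s := by
  rw [Finset.prod_univ_sum, Fintype.piFinset_univ]
  exact Fintype.sum_equiv (Equiv.piCurry fun (i : I) (_ : J i) => k) _ _ fun t => rfl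

theorem card_sigma' {I : Type} [Fintype I] [DecidableEq I] {J : I → Type} [∀ i, Fintype (J i)] [∀ i, DecidableEq (J i)]
    {k : Type} [Fintype k] [DecidableEq k] :
    (Fintype.card ((Σ i, J i) → k) : ℝ) = ∏ i, (Fintype.card (J i → k) : ℝ) := by
  have h := sum_sigma (J := J) (k := k) (fun i _ => (1 : ℝ))
  simp only [Finset.prod_const_one, Finset.sum_const, nsmul_eq_mul, mul_one, Finset.card_univ] at h
  exact h

/-- the mean value of a product -/
theorem mean_prod {I : Type} [Fintype I] [DecidableEq I] {J : I → Type} [∀ i, Fintype (J i)] [∀ i, DecidableEq (J i)]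
    {k : Type} [Fintype k] [DecidableEq k] (φ : ∀ i, (J i → k) → ℝ) :
    (∑ t : (Σ i, J i) → k, ∏ i, φ i (fun j => t ⟨i, j⟩)) / Fintype.card ((Σ i, J i) → k) =
      ∏ i, ((∑ s : J i → k, φ i s) / Fintype.card (J i → k)) := by
  rw [sum_sigma, card_sigma', Finset.prod_div_distrib]

/-- the mean value of a function of one component -/
theorem mean_one {I : Type} [Fintype I] [DecidableEq I] {J : I → Type} [∀ i, Fintype (J i)] [∀ i, DecidableEq (J i)]
    {k : Type} [Fintype k] [DecidableEq k] [Nonempty k] (i₀ : I) (ψ : (J i₀ → k) → ℝ) :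
    (∑ t : (Σ i, J i) → k, ψ (fun j => t ⟨i₀, j⟩)) / Fintype.card ((Σ i, J i) → k) =
      (∑ s : J i₀ → k, ψ s) / Fintype.card (J i₀ → k) := by
  have h := mean_prod (J := J) (k := k) (Function.update (fun i _ => (1 : ℝ)) i₀ ψ)
  have h1 : ∀ t : (Σ i, J i) → k, ∏ i, (Function.update (fun i (_ : J i → k) => (1 : ℝ)) i₀ ψ) i (fun j => t ⟨i, j⟩) =
      ψ (fun j => t ⟨i₀, j⟩) := by
    intro t
    rw [Finset.prod_eq_single i₀]
    · rw [Function.update_self]
    · intro b _ hb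
      rw [Function.update_of_ne hb]
    · intro hb
      exact absurd (Finset.mem_univ _) hb
  rw [Finset.sum_congr rfl fun t _ => h1 t] at h
  rw [h, Finset.prod_eq_single i₀]
  · rw [Function.update_self]
  · intro b _ hb
    rw [Function.update_of_ne hb, Finset.sum_const, Finset.card_univ, nsmul_eq_mul, mul_one, div_self]
    exact_mod_cast Fintype.card_ne_zero
  · intro hb
    exact absurd (Finset.mem_univ _) hb

/-- products of approximations -/
theorem prod_close {I : Type} [DecidableEq I] (s : Finset I) (y : I → ℝ) (c : I → ℝ) (hc : ∀ i, 0 ≤ c i) :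
    ∃ C : ℝ, 0 ≤ C ∧ ∀ (Q : ℝ) (_ : 1 ≤ Q) (x : I → ℝ) (_ : ∀ i, |x i - y i| * Q ≤ c i),
      |∏ i ∈ s, x i - ∏ i ∈ s, y i| * Q ≤ C := by
  induction s using Finset.induction_on with
  | empty => exact ⟨0, le_rfl, fun Q _ x _ => by simp⟩
  | insert a s ha ih =>
    obtain ⟨C, hC0, hC⟩ := ih
    have h1 := hc a
    refine ⟨(|y a| + c a) * C + c a * |∏ i ∈ s, y i|, by positivity, fun Q hQ x hx => ?_⟩
    have h2 := hC Q hQ x hx
    have h3 := hx a
    have hQ0 : 0 ≤ Q := by linarith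
    have h4 : |x a - y a| ≤ |x a - y a| * Q := le_mul_of_one_le_right (abs_nonneg _) hQ
    have h5 : |x a| ≤ |y a| + c a := by
      have := abs_add_le (x a - y a) (y a)
      rw [sub_add_cancel] at this
      linarith
    rw [Finset.prod_insert ha, Finset.prod_insert ha]
    have e : x a * ∏ i ∈ s, x i - y a * ∏ i ∈ s, y i = x a * (∏ i ∈ s, x i - ∏ i ∈ s, y i) + (x a - y a) * ∏ i ∈ s, y i := by
      ring
    rw [e]
    calc |x a * (∏ i ∈ s, x i - ∏ i ∈ s, y i) + (x a - y a) * ∏ i ∈ s, y i| * Q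
        ≤ (|x a * (∏ i ∈ s, x i - ∏ i ∈ s, y i)| + |(x a - y a) * ∏ i ∈ s, y i|) * Q :=
          mul_le_mul_of_nonneg_right (abs_add_le _ _) hQ0
      _ = |x a| * (|∏ i ∈ s, x i - ∏ i ∈ s, y i| * Q) + (|x a - y a| * Q) * |∏ i ∈ s, y i| := by
          rw [abs_mul, abs_mul]; ring
      _ ≤ (|y a| + c a) * C + c a * |∏ i ∈ s, y i| := by gcongr

/-! ### one family -/

section
variable {K : Type} [Field K] [NumberField K] {J : Type} [Fintype J] [DecidableEq J] (𝓕 : Family K J)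

/-- the polynomial over the residue field -/
noncomputable def fpol (v : HeightOneSpectrum (𝓞 K)) (t : J → kv v) : (kv v)[X] :=
  𝓕.F₀.map (Ideal.Quotient.mk v.asIdeal) + ∑ j, C (t j) * (𝓕.P j).map (Ideal.Quotient.mk v.asIdeal)

theorem map_member (v : HeightOneSpectrum (𝓞 K)) (t : J → 𝓞 K) :
    (𝓕.member t).map (Ideal.Quotient.mk v.asIdeal) = fpol 𝓕 v (rd v t) := by
  unfold Family.member fpol rd
  simp only [Polynomial.map_add, Polynomial.map_mul, Polynomial.map_C, Polynomial.map_sum]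

theorem monic_aux' {A : Type} [CommRing A] [Nontrivial A] {F g : A[X]} (hF : F.Monic) (hd : g.natDegree < F.natDegree) :
    (F + g).Monic ∧ (F + g).natDegree = F.natDegree := by
  have h3 : g.degree < F.degree := by
    rw [degree_eq_natDegree hF.ne_zero]
    exact (degree_le_natDegree).trans_lt (by exact_mod_cast hd)
  exact ⟨hF.add_of_left h3, natDegree_eq_of_degree_eq (degree_add_eq_left_of_degree_lt h3)⟩

theorem lin_deg' {A : Type} [CommRing A] (P : J → A[X]) {d : ℕ} (hd : 1 ≤ d) (hP : ∀ j, (P j).natDegree < d) (t : J → A) :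
    (∑ j, C (t j) * P j).natDegree < d := by
  have h2 : (∑ j, C (t j) * P j).natDegree ≤ d - 1 := by
    refine natDegree_sum_le_of_forall_le _ _ fun j _ => ?_
    refine (natDegree_C_mul_le _ _).trans ?_
    have := hP j
    omega
  omega

theorem fpol_monic (v : HeightOneSpectrum (𝓞 K)) (t : J → kv v) :
    (fpol 𝓕 v t).Monic ∧ (fpol 𝓕 v t).natDegree = 𝓕.F₀.natDegree := by
  have hF := 𝓕.monic.map (Ideal.Quotient.mk v.asIdeal)
  have hFd : (𝓕.F₀.map (Ideal.Quotient.mk v.asIdeal)).natDegree = 𝓕.F₀.natDegree := 𝓕.monic.natDegree_map _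
  have h3 := 𝓕.deg_three
  have h := monic_aux' hF (g := ∑ j, C (t j) * (𝓕.P j).map (Ideal.Quotient.mk v.asIdeal)) (by
    rw [hFd]
    exact lin_deg' _ (by omega) (fun j => (natDegree_map_le).trans_lt (𝓕.deg_P j)) t)
  rw [hFd] at h
  exact h

theorem member_monic (t : J → 𝓞 K) : (𝓕.member t).Monic ∧ (𝓕.member t).natDegree = 𝓕.F₀.natDegree :=
  monic_aux' 𝓕.monic (lin_deg' 𝓕.P (by have := 𝓕.deg_three; omega) 𝓕.deg_P t)

/-- the parameters of the family with the coordinates `c` in the directions `X^n` -/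
noncomputable def ext {k : Type} [Field k] (c : Fin 𝓕.N → k) : J → k := fun j => ∑ n, if 𝓕.e n = j then c n else 0

theorem fpol_ext (v : HeightOneSpectrum (𝓞 K)) (s : J → kv v) (c : Fin 𝓕.N → kv v) :
    fpol 𝓕 v (s + ext 𝓕 c) = gfam 𝓕.N (fpol 𝓕 v s) c := by
  unfold gfam fpol ext
  have h1 : ∑ j, C ((s + fun j => ∑ n, if 𝓕.e n = j then c n else 0) j) * (𝓕.P j).map (Ideal.Quotient.mk v.asIdeal) =
      ∑ j, C (s j) * (𝓕.P j).map (Ideal.Quotient.mk v.asIdeal) + ∑ n : Fin 𝓕.N, C (c n) * X ^ (n : ℕ) := by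
    simp only [Pi.add_apply, C_add, add_mul, Finset.sum_add_distrib]
    congr 1
    have h2 : ∀ j, C (∑ n, if 𝓕.e n = j then c n else 0) * (𝓕.P j).map (Ideal.Quotient.mk v.asIdeal) =
        ∑ n, if 𝓕.e n = j then C (c n) * (𝓕.P j).map (Ideal.Quotient.mk v.asIdeal) else 0 := by
      intro j
      rw [map_sum, Finset.sum_mul]
      refine Finset.sum_congr rfl fun n _ => ?_
      split_ifs
      · rfl
      · rw [C_0, zero_mul]
    rw [Finset.sum_congr rfl fun j _ => h2 j, Finset.sum_comm]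
    refine Finset.sum_congr rfl fun n _ => ?_
    rw [Finset.sum_ite_eq Finset.univ (𝓕.e n), if_pos (Finset.mem_univ _), 𝓕.P_e, Polynomial.map_pow, Polynomial.map_X]
  rw [h1]
  ring

/-- Mean values over the directions `X^n`. -/
theorem fiber_mean (v : HeightOneSpectrum (𝓞 K)) (φ : (kv v)[X] → ℝ) (A B : ℝ)
    (h : ∀ U : (kv v)[X], U.Monic → U.natDegree = 𝓕.F₀.natDegree →
      |(∑ c : Fin 𝓕.N → kv v, φ (gfam 𝓕.N U c)) / (Fintype.card (kv v) : ℝ) ^ 𝓕.N - A| ≤ B) :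
    |(∑ s : J → kv v, φ (fpol 𝓕 v s)) / Fintype.card (J → kv v) - A| ≤ B := by
  have hJ : (0 : ℝ) < Fintype.card (J → kv v) := by exact_mod_cast Fintype.card_pos
  have hN : (0 : ℝ) < (Fintype.card (kv v) : ℝ) ^ 𝓕.N := by
    have : (0 : ℝ) < Fintype.card (kv v) := by exact_mod_cast Fintype.card_pos
    positivity
  have h1 : (Fintype.card (kv v) : ℝ) ^ 𝓕.N * ∑ s : J → kv v, φ (fpol 𝓕 v s) =
      ∑ s : J → kv v, ∑ c : Fin 𝓕.N → kv v, φ (gfam 𝓕.N (fpol 𝓕 v s) c) := by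
    rw [Finset.sum_comm]
    have h2 : ∀ c : Fin 𝓕.N → kv v, ∑ s : J → kv v, φ (gfam 𝓕.N (fpol 𝓕 v s) c) = ∑ s : J → kv v, φ (fpol 𝓕 v s) := by
      intro c
      refine Fintype.sum_equiv (Equiv.addRight (ext 𝓕 c)) _ _ fun s => ?_
      rw [Equiv.coe_addRight, fpol_ext]
    rw [Finset.sum_congr rfl fun c _ => h2 c, Finset.sum_const, Finset.card_univ, Fintype.card_fun, Fintype.card_fin,
      nsmul_eq_mul]
    push_cast
    rfl
  have h3 : (∑ s : J → kv v, φ (fpol 𝓕 v s)) / Fintype.card (J → kv v) - A =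
      (∑ s : J → kv v, ((∑ c : Fin 𝓕.N → kv v, φ (gfam 𝓕.N (fpol 𝓕 v s) c)) / (Fintype.card (kv v) : ℝ) ^ 𝓕.N - A)) /
        Fintype.card (J → kv v) := by
    rw [Finset.sum_sub_distrib, ← Finset.sum_div, ← h1, Finset.sum_const, Finset.card_univ, nsmul_eq_mul]
    field_simp
  rw [h3, abs_div, abs_of_pos hJ, div_le_iff₀ hJ]
  refine (Finset.abs_sum_le_sum_abs _ _).trans ((Finset.sum_le_sum fun s _ =>
    h _ (fpol_monic 𝓕 v s).1 (fpol_monic 𝓕 v s).2).trans ?_)
  rw [Finset.sum_const, Finset.card_univ, nsmul_eq_mul, mul_comm]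

theorem N_le : 𝓕.N ≤ 𝓕.F₀.natDegree := by
  have h := 𝓕.N_pos
  have h1 := 𝓕.deg_P (𝓕.e ⟨𝓕.N - 1, by omega⟩)
  rw [𝓕.P_e, natDegree_X_pow] at h1
  simp only at h1
  omega

/-- The moments of the traces of one family. -/
theorem one_mom (e : ℕ) (he : e ≤ 𝓕.N) (hed : e + 1 ≤ 𝓕.F₀.natDegree) :
    ∃ C : ℝ, 0 ≤ C ∧ ∀ v : HeightOneSpectrum (𝓞 K), ringChar (kv v) ≠ 2 → ((𝓕.F₀.natDegree : ℕ) : kv v) ≠ 0 →
      |(∑ s : J → kv v, (trc (fpol 𝓕 v s) 0 : ℝ) ^ e) / Fintype.card (J → kv v) - gm e * Real.sqrt (nv v) ^ e| *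
        Real.sqrt (nv v) ≤ C * Real.sqrt (nv v) ^ e := by
  have h3 := 𝓕.deg_three
  obtain ⟨C, hC0, hC⟩ := mom_trc 𝓕.F₀.natDegree 𝓕.N e 𝓕.N_pos he hed (N_le 𝓕) (by omega)
  refine ⟨C, hC0, fun v hk hp => ?_⟩
  have hQ : 0 < Real.sqrt (nv v) := Real.sqrt_pos.2 (nv_pos v)
  rw [← le_div_iff₀ hQ]
  refine fiber_mean 𝓕 v (fun f => (trc f 0 : ℝ) ^ e) _ _ fun U hU hUd => ?_
  rw [le_div_iff₀ hQ]
  have h := hC (kv v) hk hp U hU hUd
  rw [card_kv] at h ⊢
  exact h

open Classical in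
/-- The proportion of the singular members. -/
theorem one_bad (v : HeightOneSpectrum (𝓞 K)) (hp : ((𝓕.F₀.natDegree : ℕ) : kv v) ≠ 0) :
    (∑ s : J → kv v, (if ¬ (fpol 𝓕 v s).Separable then (1 : ℝ) else 0)) / Fintype.card (J → kv v) ≤
      𝓕.F₀.natDegree / nv v := by
  have h3 := 𝓕.deg_three
  have hq : (0 : ℝ) < nv v := nv_pos v
  have h := fiber_mean 𝓕 v (fun f => if ¬ f.Separable then (1 : ℝ) else 0) 0 (𝓕.F₀.natDegree / nv v) fun U hU hUd => by
    have h1 := card_bad 𝓕.N_pos hU (by rw [hUd]; exact N_le 𝓕) (by omega) (by rw [hUd]; exact hp)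
    have h2 : (#{t : Fin 𝓕.N → kv v | ¬ (gfam 𝓕.N U t).Separable} : ℝ) =
        ∑ t : Fin 𝓕.N → kv v, if ¬ (gfam 𝓕.N U t).Separable then (1 : ℝ) else 0 := by
      rw [Finset.sum_ite, Finset.sum_const_zero, add_zero, Finset.sum_const, nsmul_eq_mul, mul_one]
    rw [h2, hUd, card_kv] at h1
    have hs : 0 ≤ ∑ t : Fin 𝓕.N → kv v, if ¬ (gfam 𝓕.N U t).Separable then (1 : ℝ) else 0 :=
      Finset.sum_nonneg fun t _ => by positivity
    rw [sub_zero, abs_div, abs_of_nonneg hs, card_kv, abs_of_pos (by positivity), div_le_div_iff₀ (by positivity) hq]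
    exact h1
  rw [sub_zero] at h
  exact (le_abs_self _).trans h

end

end Run7.h61.MO
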