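import Mathlib

/-!
# Moments of sums of random signs
-/

set_option autoImplicit false
set_option linter.unusedSectionVars false

namespace Run7.h61.MO

open Finset

/-- the sign of a boolean -/
noncomputable def sg (b : Bool) : ℝ := if b then 1 else -1

/-- The `m`-th moment of a sum of `n` random signs. -/
noncomputable def Rm : ℕ → ℕ → ℝ
  | 0, m => if m = 0 then 1 else 0
  | n + 1, m => ∑ j ∈ range (m + 1), (if Even j then (m.choose j : ℝ) else 0) * Rm n (m - j)

theorem sum_fin (n m : ℕ) : ∑ ε : Fin n → Bool, (∑ i, sg (ε i)) ^ m = 2 ^ n * Rm n m := by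
  induction n generalizing m with
  | zero =>
    unfold Rm
    simp only [Finset.univ_eq_empty, Finset.sum_empty, pow_zero, one_mul]
    rw [Finset.sum_const]
    split_ifs with h
    · rw [h]; simp
    · rw [zero_pow h]; simp
  | succ n ih =>
    have h1 : ∑ ε : Fin (n + 1) → Bool, (∑ i, sg (ε i)) ^ m =
        ∑ p : Bool × (Fin n → Bool), (sg p.1 + ∑ i, sg (p.2 i)) ^ m := by
      refine (Fintype.sum_equiv (Fin.consEquiv (fun _ => Bool)) _ _ fun p => ?_).symm
      rw [Fin.sum_univ_succ]
      rfl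
    rw [h1, Fintype.sum_prod_type, Fintype.sum_bool]
    simp only
    rw [← Finset.sum_add_distrib]
    have h2 : ∀ S : ℝ, (sg true + S) ^ m + (sg false + S) ^ m =
        ∑ j ∈ range (m + 1), 2 * ((if Even j then (m.choose j : ℝ) else 0) * S ^ (m - j)) := by
      intro S
      rw [add_pow, add_pow, ← Finset.sum_add_distrib]
      refine Finset.sum_congr rfl fun j _ => ?_
      unfold sg
      rw [if_pos rfl, if_neg (by decide), one_pow]
      split_ifs with h
      · rw [h.neg_one_pow]; ring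
      · rw [(Nat.not_even_iff_odd.1 h).neg_one_pow]; ring
    rw [Finset.sum_congr rfl fun ε _ => h2 _, Finset.sum_comm, Rm]
    rw [pow_succ, Finset.mul_sum]
    refine Finset.sum_congr rfl fun j _ => ?_
    rw [← Finset.mul_sum, ← Finset.mul_sum, ih]
    ring

/-- The moments of a sum of random signs over a finite type. -/
theorem sum_signs (α : Type) [Fintype α] [DecidableEq α] (m : ℕ) :
    ∑ ε : α → Bool, (∑ x, sg (ε x)) ^ m = 2 ^ (Fintype.card α) * Rm (Fintype.card α) m := by
  rw [← sum_fin]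
  refine Fintype.sum_equiv (Equiv.arrowCongr (Fintype.equivFin α) (Equiv.refl _)) _ _ fun ε => ?_
  congr 1
  refine Fintype.sum_equiv (Fintype.equivFin α) _ _ fun x => ?_
  simp

/-- The moments of a Gaussian variable. -/
def gm (m : ℕ) : ℕ := if Even m then Nat.doubleFactorial (m - 1) else 0

theorem gm_odd {m : ℕ} (h : Odd m) : gm m = 0 := if_neg (Nat.not_even_iff_odd.2 h)

theorem gm_zero : gm 0 = 1 := rfl

theorem gm_succ (c : ℕ) : gm (2 * c + 2) = (2 * c + 1) * gm (2 * c) := by
  unfold gm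
  rw [if_pos ⟨c + 1, by ring⟩, if_pos ⟨c, by ring⟩]
  rcases Nat.eq_zero_or_pos c with h | h
  · subst h; rfl
  · obtain ⟨d, rfl⟩ : ∃ d, c = d + 1 := ⟨c - 1, by omega⟩
    have e1 : 2 * (d + 1) + 2 - 1 = 2 * d + 1 + 2 := by omega
    have e2 : 2 * (d + 1) - 1 = 2 * d + 1 := by omega
    rw [e1, e2, Nat.doubleFactorial_add_two]
    ring

theorem Rm_zero (n : ℕ) : Rm n 0 = 1 := by
  induction n with
  | zero => rfl
  | succ n ih => rw [Rm]; simp [ih]

theorem Rm_odd (n : ℕ) {m : ℕ} (h : Odd m) : Rm n m = 0 := by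
  induction n generalizing m with
  | zero =>
    rw [Rm, if_neg]
    rintro rfl
    exact (by decide : ¬ Odd 0) h
  | succ n ih =>
    rw [Rm]
    refine Finset.sum_eq_zero fun j hj => ?_
    split_ifs with hj2
    · rw [ih, mul_zero]
      have : j ≤ m := Nat.lt_succ_iff.1 (Finset.mem_range.1 hj)
      exact Nat.Odd.sub_even this h hj2
    · rw [zero_mul]

theorem sum_even (g : ℕ → ℝ) (b : ℕ) :
    ∑ j ∈ range (2 * b + 1), (if Even j then g j else 0) = ∑ i ∈ range (b + 1), g (2 * i) := by
  induction b with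
  | zero => simp
  | succ b ih =>
    have e : 2 * (b + 1) + 1 = 2 * b + 1 + 1 + 1 := by ring
    rw [e, Finset.sum_range_succ, Finset.sum_range_succ, ih, Finset.sum_range_succ _ (b + 1),
      if_neg (by rw [Nat.not_even_iff_odd]; exact ⟨b, by ring⟩), if_pos ⟨b + 1, by ring⟩, add_zero]
    congr 2

theorem Rm_rec (n c : ℕ) : Rm (n + 1) (2 * c + 4) = Rm n (2 * c + 4) + ((2 * c + 4).choose 2 : ℝ) * Rm n (2 * c + 2) +
    ∑ i ∈ range (c + 1), ((2 * c + 4).choose (2 * i + 4) : ℝ) * Rm n (2 * (c - i)) := by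
  rw [Rm]
  have e : ∀ j, (if Even j then ((2 * c + 4).choose j : ℝ) else 0) * Rm n (2 * c + 4 - j) =
      if Even j then ((2 * c + 4).choose j : ℝ) * Rm n (2 * c + 4 - j) else 0 := by
    intro j
    split_ifs
    · rfl
    · rw [zero_mul]
  rw [Finset.sum_congr rfl fun j _ => e j, show 2 * c + 4 + 1 = 2 * (c + 2) + 1 from by ring,
    sum_even (fun j => ((2 * c + 4).choose j : ℝ) * Rm n (2 * c + 4 - j)) (c + 2),
    show c + 2 + 1 = (c + 1) + 1 + 1 from by ring, Finset.sum_range_succ' _ (c + 1 + 1), Finset.sum_range_succ' _ (c + 1)]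
  simp only [mul_zero, Nat.choose_zero_right, Nat.cast_one, one_mul, Nat.sub_zero, zero_add, mul_one]
  rw [show 2 * c + 4 - 2 = 2 * c + 2 from by omega]
  have e2 : ∑ k ∈ range (c + 1), ((2 * c + 4).choose (2 * (k + 1 + 1)) : ℝ) * Rm n (2 * c + 4 - 2 * (k + 1 + 1)) =
      ∑ i ∈ range (c + 1), ((2 * c + 4).choose (2 * i + 4) : ℝ) * Rm n (2 * (c - i)) := by
    refine Finset.sum_congr rfl fun i hi => ?_
    have := Finset.mem_range.1 hi
    rw [show 2 * (i + 1 + 1) = 2 * i + 4 from by ring, show 2 * c + 4 - (2 * i + 4) = 2 * (c - i) from by omega]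
  rw [e2]
  ring

theorem Rm_two (n : ℕ) : Rm n 2 = n := by
  induction n with
  | zero => simp [Rm]
  | succ n ih =>
    rw [Rm]
    simp only [Finset.sum_range_succ, Finset.sum_range_zero]
    rw [if_pos (by decide), if_neg (by decide), if_pos (by decide), show 2 - 0 = 2 from rfl, show 2 - 2 = 0 from rfl, ih,
      Rm_zero]
    simp

theorem binom_rem (n c : ℕ) : ((n : ℝ) + 1) ^ (c + 2) = n ^ (c + 2) + (c + 2 : ℕ) * (n : ℝ) ^ (c + 1) +
    ∑ m ∈ range (c + 1), (n : ℝ) ^ m * ((c + 2).choose m : ℝ) := by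
  rw [add_pow, Finset.sum_range_succ, Finset.sum_range_succ]
  simp only [one_pow, mul_one, Nat.choose_self, Nat.cast_one]
  have : (c + 2).choose (c + 1) = c + 2 := by
    have h := Nat.choose_succ_self_right (c + 1)
    exact h
  rw [this]
  ring

/-- the coefficient of the second term -/
theorem choose_gm (c : ℕ) : (2 * c + 4).choose 2 * gm (2 * c + 2) = gm (2 * c + 4) * (c + 2) := by
  have h1 : gm (2 * c + 4) = (2 * c + 3) * gm (2 * c + 2) := gm_succ (c + 1)
  have h2 : (2 * c + 4).choose 2 = (c + 2) * (2 * c + 3) := by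
    rw [Nat.choose_two_right, show (2 * c + 4) * (2 * c + 4 - 1) = 2 * ((c + 2) * (2 * c + 3)) from by
      rw [show 2 * c + 4 - 1 = 2 * c + 3 from by omega]; ring]
    exact Nat.mul_div_cancel_left _ (by norm_num)
  rw [h1, h2]
  ring

/-- **The moments of a sum of random signs.** -/
theorem asym (b : ℕ) : ∃ C : ℝ, 0 ≤ C ∧ ∀ n : ℕ, |Rm n (2 * b) - gm (2 * b) * (n : ℝ) ^ b| ≤ C * ((n : ℝ) + 1) ^ (b - 1) := by
  induction b using Nat.strong_induction_on with
  | _ b ih =>
    rcases Nat.lt_or_ge b 2 with hb | hb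
    · interval_cases b
      · exact ⟨0, le_rfl, fun n => by simp [Rm_zero, gm_zero]⟩
      · refine ⟨0, le_rfl, fun n => ?_⟩
        have h1 : gm (2 * 1) = 1 := by decide
        rw [h1, mul_one, Rm_two]
        simp
    · obtain ⟨c, rfl⟩ : ∃ c, b = c + 2 := ⟨b - 2, by omega⟩
      choose! C hC0 hC using ih
      -- bounds for the lower moments
      have hlow : ∀ j ≤ c, ∀ n : ℕ, |Rm n (2 * j)| ≤ (gm (2 * j) + C j) * ((n : ℝ) + 1) ^ j := by
        intro j hj n
        have h1 := hC j (by omega) n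
        have h0 := hC0 j (by omega)
        have hn : (0 : ℝ) ≤ n := by positivity
        have h2 : |Rm n (2 * j)| ≤ |Rm n (2 * j) - gm (2 * j) * (n : ℝ) ^ j| + |gm (2 * j) * (n : ℝ) ^ j| := by
          have := abs_add_le (Rm n (2 * j) - gm (2 * j) * (n : ℝ) ^ j) (gm (2 * j) * (n : ℝ) ^ j)
          rwa [sub_add_cancel] at this
        have h3 : |(gm (2 * j) : ℝ) * (n : ℝ) ^ j| ≤ gm (2 * j) * ((n : ℝ) + 1) ^ j := by
          rw [abs_of_nonneg (by positivity)]
          gcongr
          linarith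
        have h4 : C j * ((n : ℝ) + 1) ^ (j - 1) ≤ C j * ((n : ℝ) + 1) ^ j := by
          refine mul_le_mul_of_nonneg_left (pow_le_pow_right₀ (by linarith) (by omega)) h0
        rw [add_mul]
        linarith
      set A : ℝ := ((2 * c + 4).choose 2 : ℝ) * C (c + 1) +
        ∑ i ∈ range (c + 1), ((2 * c + 4).choose (2 * i + 4) : ℝ) * (gm (2 * (c - i)) + C (c - i)) +
        gm (2 * c + 4) * ∑ m ∈ range (c + 1), ((c + 2).choose m : ℝ) with hA
      have hA0 : 0 ≤ A := by
        have h1 := hC0 (c + 1) (by omega)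
        have h2 : ∀ i ∈ range (c + 1), 0 ≤ ((2 * c + 4).choose (2 * i + 4) : ℝ) * (gm (2 * (c - i)) + C (c - i)) := by
          intro i _
          have := hC0 (c - i) (by omega)
          positivity
        have h3 := Finset.sum_nonneg h2
        have h4 : (0 : ℝ) ≤ ∑ m ∈ range (c + 1), ((c + 2).choose m : ℝ) := by positivity
        rw [hA]
        positivity
      set D : ℕ → ℝ := fun n => Rm n (2 * (c + 2)) - gm (2 * (c + 2)) * (n : ℝ) ^ (c + 2) with hD
      have hstep : ∀ n, |D (n + 1) - D n| ≤ A * ((n : ℝ) + 1) ^ c := by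
        intro n
        have hn : (0 : ℝ) ≤ n := by positivity
        have hcg : ((2 * c + 4).choose 2 : ℝ) * gm (2 * c + 2) = gm (2 * c + 4) * (c + 2 : ℕ) := by
          exact_mod_cast choose_gm c
        have e : D (n + 1) - D n = ((2 * c + 4).choose 2 : ℝ) * (Rm n (2 * (c + 1)) - gm (2 * (c + 1)) * (n : ℝ) ^ (c + 1)) +
            ∑ i ∈ range (c + 1), ((2 * c + 4).choose (2 * i + 4) : ℝ) * Rm n (2 * (c - i)) -
            gm (2 * c + 4) * ∑ m ∈ range (c + 1), (n : ℝ) ^ m * ((c + 2).choose m : ℝ) := by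
          rw [hD]
          simp only
          rw [show 2 * (c + 2) = 2 * c + 4 from by ring, Rm_rec, Nat.cast_add_one, binom_rem,
            show 2 * (c + 1) = 2 * c + 2 from by ring]
          linear_combination ((n : ℝ) ^ (c + 1)) * hcg
        have h1 : |((2 * c + 4).choose 2 : ℝ) * (Rm n (2 * (c + 1)) - gm (2 * (c + 1)) * (n : ℝ) ^ (c + 1))| ≤
            ((2 * c + 4).choose 2 : ℝ) * C (c + 1) * ((n : ℝ) + 1) ^ c := by
          rw [abs_mul, abs_of_nonneg (by positivity), mul_assoc]
          refine mul_le_mul_of_nonneg_left ?_ (by positivity)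
          exact hC (c + 1) (by omega) n
        have h2 : |∑ i ∈ range (c + 1), ((2 * c + 4).choose (2 * i + 4) : ℝ) * Rm n (2 * (c - i))| ≤
            (∑ i ∈ range (c + 1), ((2 * c + 4).choose (2 * i + 4) : ℝ) * (gm (2 * (c - i)) + C (c - i))) * ((n : ℝ) + 1) ^ c := by
          rw [Finset.sum_mul]
          refine (Finset.abs_sum_le_sum_abs _ _).trans (Finset.sum_le_sum fun i _ => ?_)
          rw [abs_mul, abs_of_nonneg (by positivity : (0 : ℝ) ≤ ((2 * c + 4).choose (2 * i + 4) : ℝ)), mul_assoc]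
          refine mul_le_mul_of_nonneg_left ?_ (by positivity)
          have h0 := hC0 (c - i) (by omega)
          refine (hlow (c - i) (by omega) n).trans (mul_le_mul_of_nonneg_left
            (pow_le_pow_right₀ (by linarith) (by omega)) (by positivity))
        have h3 : |(gm (2 * c + 4) : ℝ) * ∑ m ∈ range (c + 1), (n : ℝ) ^ m * ((c + 2).choose m : ℝ)| ≤
            (gm (2 * c + 4) * ∑ m ∈ range (c + 1), ((c + 2).choose m : ℝ)) * ((n : ℝ) + 1) ^ c := by
          rw [abs_of_nonneg (by positivity), mul_assoc, Finset.sum_mul]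
          refine mul_le_mul_of_nonneg_left (Finset.sum_le_sum fun m hm => ?_) (by positivity)
          rw [mul_comm]
          refine mul_le_mul_of_nonneg_left ?_ (by positivity)
          have := Finset.mem_range.1 hm
          calc (n : ℝ) ^ m ≤ ((n : ℝ) + 1) ^ m := pow_le_pow_left₀ hn (by linarith) m
            _ ≤ ((n : ℝ) + 1) ^ c := pow_le_pow_right₀ (by linarith) (by omega)
        rw [e, hA, add_mul, add_mul]
        refine (abs_sub _ _).trans (add_le_add ((abs_add_le _ _).trans (add_le_add h1 h2)) h3)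
      have hD0 : D 0 = 0 := by
        rw [hD]
        simp only [Nat.cast_zero]
        rw [zero_pow (by omega), mul_zero, sub_zero, Rm, if_neg (by omega)]
      have hind : ∀ n : ℕ, |D n| ≤ A * (n * ((n : ℝ) + 1) ^ c) := by
        intro n
        induction n with
        | zero => rw [hD0]; simp
        | succ n ih2 =>
          have h1 := abs_add_le (D (n + 1) - D n) (D n)
          rw [sub_add_cancel] at h1
          have h2 := hstep n
          have hn : (0 : ℝ) ≤ n := by positivity
          have h3 : ((n : ℝ) + 1) ^ c ≤ ((n + 1 : ℕ) + 1 : ℝ) ^ c := by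
            refine pow_le_pow_left₀ (by positivity) ?_ c
            push_cast
            linarith
          have h4 : A * (((n + 1 : ℕ) : ℝ) * ((n : ℝ) + 1) ^ c) ≤ A * (((n + 1 : ℕ) : ℝ) * ((n + 1 : ℕ) + 1 : ℝ) ^ c) := by
            gcongr
          refine le_trans ?_ h4
          push_cast
          nlinarith [h1, h2, ih2]
      refine ⟨A, hA0, fun n => (hind n).trans ?_⟩
      rw [show c + 2 - 1 = c + 1 from by omega, pow_succ]
      have hn : (0 : ℝ) ≤ n := by positivity
      refine mul_le_mul_of_nonneg_left ?_ hA0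
      rw [mul_comm]
      refine mul_le_mul_of_nonneg_left (by linarith) (by positivity)

/-- **The moments of a sum of random signs**, normalised. -/
theorem asym' (m : ℕ) : ∃ C : ℝ, 0 ≤ C ∧ ∀ n : ℕ, 1 ≤ n →
    |Rm n m - gm m * Real.sqrt n ^ m| * Real.sqrt n ≤ C * Real.sqrt n ^ m := by
  rcases Nat.even_or_odd' m with ⟨b, rfl | rfl⟩
  · rcases Nat.eq_zero_or_pos b with hb | hb
    · subst hb
      refine ⟨0, le_rfl, fun n _ => ?_⟩
      simp [Rm_zero, gm_zero]
    · obtain ⟨C, hC0, hC⟩ := asym b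
      refine ⟨C * 2 ^ (b - 1), by positivity, fun n hn => ?_⟩
      have h1 := hC n
      have hn1 : (1 : ℝ) ≤ n := by exact_mod_cast hn
      have hs : Real.sqrt n ^ (2 * b) = (n : ℝ) ^ b := by
        rw [pow_mul, Real.sq_sqrt (by positivity)]
      have hs1 : Real.sqrt n ≤ n := by
        rw [Real.sqrt_le_left (by positivity)]
        nlinarith
      rw [hs]
      calc |Rm n (2 * b) - gm (2 * b) * (n : ℝ) ^ b| * Real.sqrt n ≤ (C * ((n : ℝ) + 1) ^ (b - 1)) * n := by
            gcongr
        _ ≤ (C * (2 * n) ^ (b - 1)) * n := by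
            gcongr
            linarith
        _ = C * 2 ^ (b - 1) * ((n : ℝ) ^ (b - 1) * n) := by rw [mul_pow]; ring
        _ = C * 2 ^ (b - 1) * (n : ℝ) ^ b := by
            rw [← pow_succ, Nat.sub_add_cancel hb]
  · refine ⟨0, le_rfl, fun n _ => ?_⟩
    rw [Rm_odd n ⟨b, rfl⟩, gm_odd ⟨b, rfl⟩]
    simp

end Run7.h61.MO
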