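import Pool.Agent.Run7.h876.HY.Defs
import Pool.Agent.Run7.h61.MO.Rad

/-!
# Tensor products and cohomology groups of products of hyperelliptic curves in families: definitions

For integers `τ_i` (traces of a power of a Frobenius on `H¹(C_i)`) and `Q` (the norm) a polynomial `M`
with natural coefficients in the variables `X_i`, all of whose monomials have degree `≤ w` and of the
same parity as `w`, describes the motive of weight `w`

`⊕_e (⊗_i h¹(C_i)^(⊗ e_i) (-(w - |e|) / 2))^(coeff_e M)`.
-/

set_option autoImplicit false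

namespace Run7.h61.MO

open NumberField IsDedekindDomain
open Run7.h876.MM (nv)
open Run7.h876.HY (frobTrace GoodAt)

/-! ### motives in the tensor category generated by the `h¹(C_i)` -/

/-- All monomials of `M` have degree at most `w`, and of the same parity as `w`. -/
def IsWt {I : Type} (w : ℕ) (M : MvPolynomial I ℕ) : Prop :=
  ∀ e ∈ M.support, e.degree ≤ w ∧ Even (w - e.degree)

/-- The trace of a Frobenius on the motive of weight `w` given by `M`, if `τ i` is its trace on
`h¹(C_i)` and `Q` is the norm. -/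
noncomputable def mtr {I : Type} [Fintype I] (w : ℕ) (M : MvPolynomial I ℕ) (τ : I → ℤ) (Q : ℤ) : ℤ :=
  ∑ e ∈ M.support, ((M.coeff e : ℕ) : ℤ) * (∏ i, τ i ^ e i) * Q ^ ((w - e.degree) / 2)

/-- The value of `M` at independent standard Gaussian variables: the monomial `∏ X_i^(e_i)` has the
value `∏ (e_i - 1)!!` if all `e_i` are even, and `0` otherwise. -/
noncomputable def gaussRank {I : Type} [Fintype I] (M : MvPolynomial I ℕ) : ℕ :=
  ∑ e ∈ M.support, M.coeff e * ∏ i, gm (e i)

/-- The coefficient of `T^w` in `∏ (1 + X_i T + T²)^(n_i)`: the motive `h^w(∏ C_i^(n_i))`. -/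
noncomputable def kunneth {I : Type} [Fintype I] (n : I → ℕ) (w : ℕ) : MvPolynomial I ℕ :=
  (∏ i, (1 + Polynomial.C (MvPolynomial.X i) * Polynomial.X + Polynomial.X ^ 2) ^ n i :
    Polynomial (MvPolynomial I ℕ)).coeff w

/-! ### families -/

/-- A family of monic polynomials `f_t = F₀ + ∑ t_j P_j` of the same degree `≥ 3` over the ring of
integers; the monomials `1, X, …, X^(N-1)` are among the `P_j`. -/
structure Family (K : Type) [Field K] [NumberField K] (J : Type) where
  /-- a member of the family -/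
  F₀ : Polynomial (𝓞 K)
  /-- the directions -/
  P : J → Polynomial (𝓞 K)
  /-- the number of the lowest coefficients which are free -/
  N : ℕ
  /-- the directions `X^n` -/
  e : Fin N → J
  monic : F₀.Monic
  deg_three : 3 ≤ F₀.natDegree
  deg_P : ∀ j, (P j).natDegree < F₀.natDegree
  N_pos : 1 ≤ N
  P_e : ∀ n, P (e n) = Polynomial.X ^ (n : ℕ)

section
variable {K : Type} [Field K] [NumberField K]

/-- The members of a family. -/
noncomputable def Family.member {J : Type} [Fintype J] (𝓕 : Family K J) (t : J → 𝓞 K) : Polynomial (𝓞 K) :=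
  𝓕.F₀ + ∑ j, Polynomial.C (t j) * 𝓕.P j

variable {I : Type} [Fintype I] {J : I → Type} [∀ i, Fintype (J i)] (𝓕 : ∀ i, Family K (J i))

/-- The polynomial which defines the curve `C_i`. -/
noncomputable def curve (t : (Σ i, J i) → 𝓞 K) (i : I) : Polynomial (𝓞 K) := (𝓕 i).member fun j => t ⟨i, j⟩

/-- The parameters for which all the curves `y² = f_i(x)` are smooth. -/
def smooth : Set ((Σ i, J i) → 𝓞 K) := {t | ∀ i, ((curve 𝓕 t i).map (algebraMap (𝓞 K) K)).Separable}

open Classical in
/-- The Euler factor at `v` of the motive of weight `w` given by `M` and the curves `y² = f_i(x)`,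
`exp(∑ tr(Frob_v^m) Nv^(-ms) / m)`, where all the curves have good reduction, and `1` otherwise. -/
noncomputable def factor (w : ℕ) (M : MvPolynomial I ℕ) (t : (Σ i, J i) → 𝓞 K) (v : HeightOneSpectrum (𝓞 K))
    (s : ℂ) : ℂ :=
  if ∀ i, GoodAt (curve 𝓕 t i) v then
    Complex.exp (∑' m : ℕ, (mtr w M (fun i => frobTrace (curve 𝓕 t i) v (m + 1)) ((nv v : ℤ) ^ (m + 1)) : ℂ) *
      ((nv v : ℂ) ^ (-s)) ^ (m + 1) / ((m : ℂ) + 1))
  else 1

/-- The L-series. -/
noncomputable def LSeries (w : ℕ) (M : MvPolynomial I ℕ) (t : (Σ i, J i) → 𝓞 K) (s : ℂ) : ℂ :=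
  ∏' v : HeightOneSpectrum (𝓞 K), factor 𝓕 w M t v s

open Classical in
/-- The part `Nv ≤ Z` of the Euler product, a finite product. -/
noncomputable def partialProduct (Z w : ℕ) (M : MvPolynomial I ℕ) (t : (Σ i, J i) → 𝓞 K) (s : ℂ) : ℂ :=
  ∏' v : HeightOneSpectrum (𝓞 K), if nv v ≤ Z then factor 𝓕 w M t v s else 1

end

end Run7.h61.MO
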