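import Pool.Agent.Run7.h61.MO.Loc

/-!
# Mean values of the L-series of motives of products of curves
-/

set_option autoImplicit false
set_option linter.unusedSectionVars false

namespace Run7.h61.MO

open NumberField IsDedekindDomain Polynomial Finset Filter Topology
open Run7.h876.MM (nv kv two_le_nv nv_pos avg card_kv xv norm_xv instFieldKv instFintypeKv instDecKv ring_char_two
  card_iota_pos)
open Run7.h876.EN
open Run7.h876.HY (frobTrace GoodAt partialZeta)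
open Run7.h61.TA (Fam)

section
variable {K : Type} [Field K] [NumberField K] {I : Type} [Fintype I] [DecidableEq I] {J : I → Type}
  [∀ i, Fintype (J i)] [∀ i, DecidableEq (J i)] (𝓕 : ∀ i, Family K (J i))

/-- the polynomials of the curves over the residue field -/
noncomputable def fp (v : HeightOneSpectrum (𝓞 K)) (t : (Σ i, J i) → kv v) (i : I) : (kv v)[X] :=
  fpol (𝓕 i) v (fun j => t ⟨i, j⟩)

/-- all curves are smooth -/
def Gd (v : HeightOneSpectrum (𝓞 K)) (t : (Σ i, J i) → kv v) : Prop := ∀ i, (fp 𝓕 v t i).Separable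

open Classical in
/-- the traces as functions of the residues -/
noncomputable def av (w : ℕ) (M : MvPolynomial I ℕ) (v : HeightOneSpectrum (𝓞 K)) (t : (Σ i, J i) → kv v) (m : ℕ) : ℝ :=
  if ringChar (kv v) ≠ 2 ∧ Gd 𝓕 v t then (mtr w M (fun i => trc (fp 𝓕 v t i) m) ((nv v : ℤ) ^ (m + 1)) : ℝ) else 0

/-- the bound of the traces -/
noncomputable def DD (i : I) : ℝ := 5 * (𝓕 i).F₀.natDegree + 1

theorem DD_nonneg (i : I) : 0 ≤ DD 𝓕 i := by unfold DD; positivity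

theorem trc_le' {v : HeightOneSpectrum (𝓞 K)} (hk : ringChar (kv v) ≠ 2) (t : (Σ i, J i) → kv v) (m : ℕ) (i : I) :
    |(trc (fp 𝓕 v t i) m : ℝ)| ≤ DD 𝓕 i * Real.sqrt (nv v) ^ (m + 1) := by
  obtain ⟨h1, h2⟩ := fpol_monic (𝓕 i) v (fun j => t ⟨i, j⟩)
  have h3 := (𝓕 i).deg_three
  have h4 := trc_le hk h1 (by omega) m
  rw [h2, card_kv] at h4
  exact h4

theorem prod_trc_le {v : HeightOneSpectrum (𝓞 K)} (hk : ringChar (kv v) ≠ 2) (t : (Σ i, J i) → kv v) (m : ℕ) (e : I →₀ ℕ) :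
    |∏ i, (trc (fp 𝓕 v t i) m : ℝ) ^ e i| ≤ (∏ i, DD 𝓕 i ^ e i) * (Real.sqrt (nv v) ^ (m + 1)) ^ e.degree := by
  rw [Finset.abs_prod, Finsupp.degree_eq_sum, ← Finset.prod_pow_eq_pow_sum, ← Finset.prod_mul_distrib]
  refine Finset.prod_le_prod (fun i _ => abs_nonneg _) fun i _ => ?_
  rw [abs_pow, ← mul_pow]
  exact pow_le_pow_left₀ (abs_nonneg _) (trc_le' 𝓕 hk t m i) _

theorem sqrt_pow_eq (v : HeightOneSpectrum (𝓞 K)) (w : ℕ) : (nv v : ℝ) ^ ((w : ℝ) / 2) = Real.sqrt (nv v) ^ w := by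
  rw [Real.sqrt_eq_rpow, ← Real.rpow_natCast, ← Real.rpow_mul (nv_pos v).le]
  congr 1
  ring

theorem sqrt_pow_eq' (v : HeightOneSpectrum (𝓞 K)) (w : ℕ) :
    (nv v : ℝ) ^ ((w : ℝ) / 2 - 1 / 2) = Real.sqrt (nv v) ^ w / Real.sqrt (nv v) := by
  rw [Real.rpow_sub (nv_pos v), sqrt_pow_eq, Real.sqrt_eq_rpow]

theorem mtr_cast (w : ℕ) (M : MvPolynomial I ℕ) (τ : I → ℤ) (Q : ℤ) : (mtr w M τ Q : ℝ) =
    ∑ e ∈ M.support, ((M.coeff e : ℕ) : ℝ) * (∏ i, (τ i : ℝ) ^ e i) * (Q : ℝ) ^ ((w - e.degree) / 2) := by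
  unfold mtr
  push_cast
  rfl

/-- the constant of the bound -/
noncomputable def DM (M : MvPolynomial I ℕ) : ℝ := ∑ e ∈ M.support, ((M.coeff e : ℕ) : ℝ) * ∏ i, DD 𝓕 i ^ e i

theorem DM_nonneg (M : MvPolynomial I ℕ) : 0 ≤ DM 𝓕 M :=
  Finset.sum_nonneg fun e _ => mul_nonneg (by positivity) (Finset.prod_nonneg fun i _ => pow_nonneg (DD_nonneg 𝓕 i) _)

theorem av_le {w : ℕ} {M : MvPolynomial I ℕ} (hM : IsWt w M) (v : HeightOneSpectrum (𝓞 K)) (t : (Σ i, J i) → kv v) (m : ℕ) :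
    |av 𝓕 w M v t m| ≤ DM 𝓕 M * ((nv v : ℝ) ^ ((w : ℝ) / 2)) ^ (m + 1) := by
  rw [sqrt_pow_eq]
  have hs : 0 < Real.sqrt (nv v) := Real.sqrt_pos.2 (nv_pos v)
  unfold av
  split_ifs with h
  · rw [mtr_cast]
    unfold DM
    rw [Finset.sum_mul]
    refine (Finset.abs_sum_le_sum_abs _ _).trans (Finset.sum_le_sum fun e he => ?_)
    obtain ⟨h1, r, h2⟩ := hM e he
    have h3 : (w - e.degree) / 2 = r := by omega
    have h4 : w = 2 * r + e.degree := by omega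
    rw [h3, abs_mul, abs_mul, abs_of_nonneg (by positivity : (0 : ℝ) ≤ ((M.coeff e : ℕ) : ℝ))]
    have h5 := prod_trc_le 𝓕 h.1 t m e
    have h6 : |(((nv v : ℤ) ^ (m + 1) : ℤ) : ℝ) ^ r| = (Real.sqrt (nv v) ^ (m + 1)) ^ (2 * r) := by
      push_cast
      rw [abs_of_nonneg (by positivity)]
      rw [← pow_mul, ← pow_mul]
      conv_lhs => rw [← Real.sq_sqrt (nv_pos v).le]
      rw [← pow_mul]
      congr 1
      ring
    rw [h6]
    have h7 : (Real.sqrt (nv v) ^ w) ^ (m + 1) = (Real.sqrt (nv v) ^ (m + 1)) ^ e.degree * (Real.sqrt (nv v) ^ (m + 1)) ^ (2 * r) := by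
      conv_lhs => rw [h4]
      rw [← pow_mul, ← pow_mul, ← pow_mul, ← pow_add]
      congr 1
      ring
    rw [h7]
    calc ((M.coeff e : ℕ) : ℝ) * |∏ i, (trc (fp 𝓕 v t i) m : ℝ) ^ e i| * (Real.sqrt (nv v) ^ (m + 1)) ^ (2 * r)
        ≤ ((M.coeff e : ℕ) : ℝ) * ((∏ i, DD 𝓕 i ^ e i) * (Real.sqrt (nv v) ^ (m + 1)) ^ e.degree) * (Real.sqrt (nv v) ^ (m + 1)) ^ (2 * r) := by
          gcongr
      _ = _ := by ring
  · rw [abs_zero]
    exact mul_nonneg (DM_nonneg 𝓕 M) (by positivity)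

/-! ### the moments -/

/-- the exceptional number -/
noncomputable def N0 : 𝓞 K := 2 * ∏ i, (((𝓕 i).F₀.natDegree : ℕ) : 𝓞 K)

theorem N0_ne : N0 𝓕 ≠ 0 := by
  unfold N0
  refine mul_ne_zero two_ne_zero (Finset.prod_ne_zero_iff.2 fun i _ => ?_)
  have h := (𝓕 i).deg_three
  exact_mod_cast (by omega : (𝓕 i).F₀.natDegree ≠ 0)

theorem finite_bad : {v : HeightOneSpectrum (𝓞 K) | N0 𝓕 ∈ v.asIdeal}.Finite := by
  have h1 := Ideal.finite_factors (R := 𝓞 K) (I := Ideal.span {N0 𝓕}) (by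
    rw [Ne, Ideal.zero_eq_bot, Ideal.span_singleton_eq_bot]
    exact N0_ne 𝓕)
  refine h1.subset fun v hv => ?_
  show v.asIdeal ∣ Ideal.span {N0 𝓕}
  rw [Ideal.dvd_span_singleton]
  exact hv

theorem good_facts {v : HeightOneSpectrum (𝓞 K)} (hv : N0 𝓕 ∉ v.asIdeal) :
    ringChar (kv v) ≠ 2 ∧ ∀ i, (((𝓕 i).F₀.natDegree : ℕ) : kv v) ≠ 0 := by
  rw [← Ideal.Quotient.eq_zero_iff_mem] at hv
  unfold N0 at hv
  rw [map_mul, map_ofNat, map_prod] at hv
  have h1 := left_ne_zero_of_mul hv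
  have h2 := right_ne_zero_of_mul hv
  refine ⟨fun h => h1 (ring_char_two h), fun i => ?_⟩
  have h3 := Finset.prod_ne_zero_iff.1 h2 i (Finset.mem_univ _)
  rw [map_natCast] at h3
  exact h3

open Classical in
/-- The proportion of the parameters for which some curve is singular. -/
theorem bad_le {v : HeightOneSpectrum (𝓞 K)} (hp : ∀ i, (((𝓕 i).F₀.natDegree : ℕ) : kv v) ≠ 0) :
    (∑ t : (Σ i, J i) → kv v, (if ¬ Gd 𝓕 v t then (1 : ℝ) else 0)) / Fintype.card ((Σ i, J i) → kv v) ≤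
      (∑ i, ((𝓕 i).F₀.natDegree : ℝ)) / nv v := by
  have hc : (0 : ℝ) < Fintype.card ((Σ i, J i) → kv v) := by exact_mod_cast Fintype.card_pos
  have h1 : ∀ t : (Σ i, J i) → kv v, (if ¬ Gd 𝓕 v t then (1 : ℝ) else 0) ≤
      ∑ i, if ¬ (fp 𝓕 v t i).Separable then (1 : ℝ) else 0 := by
    intro t
    split_ifs with h
    · exact Finset.sum_nonneg fun i _ => by positivity
    · unfold Gd at h
      push Not at h
      obtain ⟨i, hi⟩ := h
      have := Finset.single_le_sum (f := fun i => if ¬ (fp 𝓕 v t i).Separable then (1 : ℝ) else 0)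
        (fun i _ => by positivity) (Finset.mem_univ i)
      simpa [hi] using this
  have h2 : (∑ t : (Σ i, J i) → kv v, (if ¬ Gd 𝓕 v t then (1 : ℝ) else 0)) / Fintype.card ((Σ i, J i) → kv v) ≤
      ∑ i, ((∑ t : (Σ i, J i) → kv v, if ¬ (fp 𝓕 v t i).Separable then (1 : ℝ) else 0) / Fintype.card ((Σ i, J i) → kv v)) := by
    rw [← Finset.sum_div, Finset.sum_comm]
    exact div_le_div_of_nonneg_right (Finset.sum_le_sum fun t _ => h1 t) hc.le
  refine h2.trans ?_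
  rw [Finset.sum_div]
  refine Finset.sum_le_sum fun i _ => ?_
  have h3 := mean_one (J := J) (k := kv v) i (fun s => if ¬ (fpol (𝓕 i) v s).Separable then (1 : ℝ) else 0)
  have h4 := one_bad (𝓕 i) v (hp i)
  rw [← h3] at h4
  exact h4

open Classical in
/-- **The mean value of a monomial.** -/
theorem mean_A (e : I →₀ ℕ) (he : ∀ i, e i ≤ (𝓕 i).N ∧ e i + 1 ≤ (𝓕 i).F₀.natDegree) :
    ∃ C : ℝ, 0 ≤ C ∧ ∀ v : HeightOneSpectrum (𝓞 K), N0 𝓕 ∉ v.asIdeal →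
      |(∑ t : (Σ i, J i) → kv v, (if Gd 𝓕 v t then ∏ i, (trc (fp 𝓕 v t i) 0 : ℝ) ^ e i else 0)) /
        Fintype.card ((Σ i, J i) → kv v) - (∏ i, (gm (e i) : ℝ)) * Real.sqrt (nv v) ^ e.degree| * Real.sqrt (nv v) ≤
      C * Real.sqrt (nv v) ^ e.degree := by
  have h := fun i => one_mom (𝓕 i) (e i) (he i).1 (he i).2
  choose c hc0 hc using h
  obtain ⟨C, hC0, hC⟩ := prod_close (Finset.univ : Finset I) (fun i => (gm (e i) : ℝ)) c hc0
  have hDD : 0 ≤ ∏ i, DD 𝓕 i ^ e i := Finset.prod_nonneg fun i _ => pow_nonneg (DD_nonneg 𝓕 i) _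
  have hdd : 0 ≤ ∑ i, ((𝓕 i).F₀.natDegree : ℝ) := Finset.sum_nonneg fun i _ => by positivity
  refine ⟨C + (∏ i, DD 𝓕 i ^ e i) * ∑ i, ((𝓕 i).F₀.natDegree : ℝ), by positivity, fun v hv => ?_⟩
  obtain ⟨hk, hp⟩ := good_facts 𝓕 hv
  have hq := nv_pos v
  obtain ⟨Q, hQ⟩ : ∃ Q, Q = Real.sqrt (nv v) := ⟨_, rfl⟩
  have hQQ : Q * Q = nv v := by rw [hQ, Real.mul_self_sqrt hq.le]
  have hQ1 : 1 ≤ Q := by
    rw [hQ, Real.one_le_sqrt]
    have := two_le_nv v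
    exact_mod_cast (by omega : 1 ≤ nv v)
  have hQ0 : 0 < Q := by linarith
  have hcard : (0 : ℝ) < Fintype.card ((Σ i, J i) → kv v) := by exact_mod_cast Fintype.card_pos
  rw [← hQ]
  -- the full mean
  have h1 := mean_prod (J := J) (k := kv v) (fun i s => (trc (fpol (𝓕 i) v s) 0 : ℝ) ^ e i)
  have h2 := hC Q hQ1 (fun i => ((∑ s : J i → kv v, (trc (fpol (𝓕 i) v s) 0 : ℝ) ^ e i) / Fintype.card (J i → kv v)) / Q ^ e i)
    (fun i => by
      have h3 := hc i v hk (hp i)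
      rw [← hQ] at h3
      have hQe : 0 < Q ^ e i := by positivity
      have h4 : (∑ s : J i → kv v, (trc (fpol (𝓕 i) v s) 0 : ℝ) ^ e i) / Fintype.card (J i → kv v) / Q ^ e i - gm (e i) =
          ((∑ s : J i → kv v, (trc (fpol (𝓕 i) v s) 0 : ℝ) ^ e i) / Fintype.card (J i → kv v) - gm (e i) * Q ^ e i) / Q ^ e i := by
        field_simp
      rw [h4, abs_div, abs_of_pos hQe, div_mul_eq_mul_div, div_le_iff₀ hQe]
      exact h3)
  rw [Finset.prod_div_distrib, Finset.prod_pow_eq_pow_sum, ← Finsupp.degree_eq_sum, ← h1] at h2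
  set E : ℝ := (∑ t : (Σ i, J i) → kv v, ∏ i, (trc (fpol (𝓕 i) v fun j => t ⟨i, j⟩) 0 : ℝ) ^ e i) /
    Fintype.card ((Σ i, J i) → kv v) with hE
  have hQd : 0 < Q ^ e.degree := by positivity
  have h5 : |E - (∏ i, (gm (e i) : ℝ)) * Q ^ e.degree| * Q ≤ C * Q ^ e.degree := by
    have h6 : E - (∏ i, (gm (e i) : ℝ)) * Q ^ e.degree = (E / Q ^ e.degree - ∏ i, (gm (e i) : ℝ)) * Q ^ e.degree := by
      field_simp
    rw [h6, abs_mul, abs_of_pos hQd]
    calc |E / Q ^ e.degree - ∏ i, (gm (e i) : ℝ)| * Q ^ e.degree * Q =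
          (|E / Q ^ e.degree - ∏ i, (gm (e i) : ℝ)| * Q) * Q ^ e.degree := by ring
      _ ≤ _ := mul_le_mul_of_nonneg_right h2 hQd.le
  -- the bad members
  set Bd : ℝ := (∑ t : (Σ i, J i) → kv v, if Gd 𝓕 v t then 0 else ∏ i, (trc (fp 𝓕 v t i) 0 : ℝ) ^ e i) /
    Fintype.card ((Σ i, J i) → kv v) with hBd
  have h7 : (∑ t : (Σ i, J i) → kv v, (if Gd 𝓕 v t then ∏ i, (trc (fp 𝓕 v t i) 0 : ℝ) ^ e i else 0)) /
        Fintype.card ((Σ i, J i) → kv v) = E - Bd := by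
    rw [hE, hBd, ← sub_div, ← Finset.sum_sub_distrib]
    congr 1
    refine Finset.sum_congr rfl fun t _ => ?_
    split_ifs
    · rw [sub_zero]; rfl
    · exact (sub_self _).symm
  have h8 : |Bd| ≤ ((∏ i, DD 𝓕 i ^ e i) * Q ^ e.degree) * ((∑ i, ((𝓕 i).F₀.natDegree : ℝ)) / nv v) := by
    rw [hBd, abs_div, abs_of_pos hcard]
    have h9 : |∑ t : (Σ i, J i) → kv v, (if Gd 𝓕 v t then (0 : ℝ) else ∏ i, (trc (fp 𝓕 v t i) 0 : ℝ) ^ e i)| ≤
        ((∏ i, DD 𝓕 i ^ e i) * Q ^ e.degree) * ∑ t : (Σ i, J i) → kv v, (if ¬ Gd 𝓕 v t then (1 : ℝ) else 0) := by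
      rw [Finset.mul_sum]
      refine (Finset.abs_sum_le_sum_abs _ _).trans (Finset.sum_le_sum fun t _ => ?_)
      by_cases hg : Gd 𝓕 v t
      · rw [if_pos hg, if_neg (not_not.2 hg)]; simp
      · rw [if_neg hg, if_pos hg, mul_one]
        have := prod_trc_le 𝓕 hk t 0 e
        rw [zero_add, pow_one, ← hQ] at this
        exact this
    refine (div_le_div_of_nonneg_right h9 hcard.le).trans ?_
    rw [mul_div_assoc]
    exact mul_le_mul_of_nonneg_left (bad_le 𝓕 hp) (mul_nonneg hDD hQd.le)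
  have h10 : |Bd| * Q ≤ (∏ i, DD 𝓕 i ^ e i) * (∑ i, ((𝓕 i).F₀.natDegree : ℝ)) * Q ^ e.degree := by
    refine (mul_le_mul_of_nonneg_right h8 hQ0.le).trans ?_
    rw [← hQQ]
    have e1 : ((∏ i, DD 𝓕 i ^ e i) * Q ^ e.degree) * ((∑ i, ((𝓕 i).F₀.natDegree : ℝ)) / (Q * Q)) * Q =
        (∏ i, DD 𝓕 i ^ e i) * (∑ i, ((𝓕 i).F₀.natDegree : ℝ)) * Q ^ e.degree * Q⁻¹ := by
      field_simp
    rw [e1]
    exact mul_le_of_le_one_right (by positivity) (inv_le_one_of_one_le₀ hQ1)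
  rw [h7]
  have h11 : E - Bd - (∏ i, (gm (e i) : ℝ)) * Q ^ e.degree = (E - (∏ i, (gm (e i) : ℝ)) * Q ^ e.degree) - Bd := by ring
  rw [h11]
  calc _ ≤ (|E - (∏ i, (gm (e i) : ℝ)) * Q ^ e.degree| + |Bd|) * Q := mul_le_mul_of_nonneg_right (abs_sub _ _) hQ0.le
    _ = |E - (∏ i, (gm (e i) : ℝ)) * Q ^ e.degree| * Q + |Bd| * Q := by ring
    _ ≤ C * Q ^ e.degree + (∏ i, DD 𝓕 i ^ e i) * (∑ i, ((𝓕 i).F₀.natDegree : ℝ)) * Q ^ e.degree := add_le_add h5 h10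
    _ = _ := by ring

/-- The condition on the families. -/
def Big (M : MvPolynomial I ℕ) : Prop :=
  ∀ e ∈ M.support, ∀ i, e i ≤ (𝓕 i).N ∧ e i + 1 ≤ (𝓕 i).F₀.natDegree

/-- **The mean value of the traces.** -/
theorem mean_av {w : ℕ} {M : MvPolynomial I ℕ} (hM : IsWt w M) (hB : Big 𝓕 M) :
    ∃ C : ℝ, 0 ≤ C ∧ ∀ v : HeightOneSpectrum (𝓞 K), v ∉ {v : HeightOneSpectrum (𝓞 K) | N0 𝓕 ∈ v.asIdeal} →
      |(∑ t, av 𝓕 w M v t 0) / (Fintype.card ((Σ i, J i) → kv v) : ℝ) - (gaussRank M : ℕ) * (nv v : ℝ) ^ ((w : ℝ) / 2)| ≤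
        C * (nv v : ℝ) ^ ((w : ℝ) / 2 - 1 / 2) := by
  classical
  have h := fun e : M.support => mean_A 𝓕 e.1 (hB e.1 e.2)
  choose c hc0 hc using h
  refine ⟨∑ e : M.support, ((M.coeff e.1 : ℕ) : ℝ) * c e, Finset.sum_nonneg fun e _ => mul_nonneg (by positivity) (hc0 e), fun v hv => ?_⟩
  have hv' : N0 𝓕 ∉ v.asIdeal := hv
  obtain ⟨hk, _⟩ := good_facts 𝓕 hv'
  have hq := nv_pos v
  have hs : 0 < Real.sqrt (nv v) := Real.sqrt_pos.2 hq
  rw [sqrt_pow_eq, sqrt_pow_eq', ← mul_div_assoc, le_div_iff₀ hs]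
  set A : (I →₀ ℕ) → ℝ := fun e => (∑ t : (Σ i, J i) → kv v, (if Gd 𝓕 v t then ∏ i, (trc (fp 𝓕 v t i) 0 : ℝ) ^ e i else 0)) /
        Fintype.card ((Σ i, J i) → kv v) with hA
  have h1 : (∑ t, av 𝓕 w M v t 0) / (Fintype.card ((Σ i, J i) → kv v) : ℝ) =
      ∑ e ∈ M.support, ((M.coeff e : ℕ) : ℝ) * A e * (nv v : ℝ) ^ ((w - e.degree) / 2) := by
    have h2 : ∀ t, av 𝓕 w M v t 0 = ∑ e ∈ M.support, ((M.coeff e : ℕ) : ℝ) *
        (if Gd 𝓕 v t then ∏ i, (trc (fp 𝓕 v t i) 0 : ℝ) ^ e i else 0) * (nv v : ℝ) ^ ((w - e.degree) / 2) := by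
      intro t
      unfold av
      by_cases hg : Gd 𝓕 v t
      · rw [if_pos ⟨hk, hg⟩, mtr_cast]
        refine Finset.sum_congr rfl fun e _ => ?_
        rw [if_pos hg, zero_add, pow_one]
        push_cast
        rfl
      · rw [if_neg fun h => hg h.2]
        symm
        refine Finset.sum_eq_zero fun e _ => ?_
        rw [if_neg hg, mul_zero, zero_mul]
    rw [Finset.sum_congr rfl fun t _ => h2 t, Finset.sum_comm, Finset.sum_div]
    refine Finset.sum_congr rfl fun e _ => ?_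
    rw [← Finset.sum_mul, ← Finset.mul_sum, hA]
    ring
  have h3 : (gaussRank M : ℝ) * Real.sqrt (nv v) ^ w =
      ∑ e ∈ M.support, ((M.coeff e : ℕ) : ℝ) * ((∏ i, (gm (e i) : ℝ)) * Real.sqrt (nv v) ^ e.degree) * (nv v : ℝ) ^ ((w - e.degree) / 2) := by
    unfold gaussRank
    push_cast
    rw [Finset.sum_mul]
    refine Finset.sum_congr rfl fun e he => ?_
    obtain ⟨g1, r, g2⟩ := hM e he
    have g3 : (w - e.degree) / 2 = r := by omega
    have g4 : w = 2 * r + e.degree := by omega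
    have g5 : Real.sqrt (nv v) ^ w = (nv v : ℝ) ^ r * Real.sqrt (nv v) ^ e.degree := by
      conv_lhs => rw [g4]
      rw [pow_add, pow_mul, Real.sq_sqrt hq.le]
    rw [g3, g5]
    ring
  rw [h1, h3, ← Finset.sum_sub_distrib, Finset.sum_mul]
  have h4 : ∀ e ∈ M.support, (((M.coeff e : ℕ) : ℝ) * A e * (nv v : ℝ) ^ ((w - e.degree) / 2) -
      ((M.coeff e : ℕ) : ℝ) * ((∏ i, (gm (e i) : ℝ)) * Real.sqrt (nv v) ^ e.degree) * (nv v : ℝ) ^ ((w - e.degree) / 2)) =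
      ((M.coeff e : ℕ) : ℝ) * (nv v : ℝ) ^ ((w - e.degree) / 2) * (A e - (∏ i, (gm (e i) : ℝ)) * Real.sqrt (nv v) ^ e.degree) := by
    intro e _
    ring
  rw [Finset.sum_congr rfl h4]
  have h5 : |∑ e ∈ M.support, ((M.coeff e : ℕ) : ℝ) * (nv v : ℝ) ^ ((w - e.degree) / 2) *
      (A e - (∏ i, (gm (e i) : ℝ)) * Real.sqrt (nv v) ^ e.degree)| * Real.sqrt (nv v) ≤
      ∑ e ∈ M.support, |((M.coeff e : ℕ) : ℝ) * (nv v : ℝ) ^ ((w - e.degree) / 2) *
      (A e - (∏ i, (gm (e i) : ℝ)) * Real.sqrt (nv v) ^ e.degree)| * Real.sqrt (nv v) := by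
    rw [← Finset.sum_mul]
    exact mul_le_mul_of_nonneg_right (Finset.abs_sum_le_sum_abs _ _) hs.le
  refine h5.trans ?_
  rw [← Finset.sum_attach M.support, ← Finset.univ_eq_attach]
  refine Finset.sum_le_sum fun e _ => ?_
  have h6 := hc e v hv'
  obtain ⟨g1, r, g2⟩ := hM e.1 e.2
  have g3 : (w - e.1.degree) / 2 = r := by omega
  have g4 : w = 2 * r + e.1.degree := by omega
  have g5 : Real.sqrt (nv v) ^ w = (nv v : ℝ) ^ r * Real.sqrt (nv v) ^ e.1.degree := by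
    conv_lhs => rw [g4]
    rw [pow_add, pow_mul, Real.sq_sqrt hq.le]
  rw [g3, g5, abs_mul, abs_of_nonneg (by positivity : (0 : ℝ) ≤ ((M.coeff e.1 : ℕ) : ℝ) * (nv v : ℝ) ^ r)]
  calc ((M.coeff e.1 : ℕ) : ℝ) * (nv v : ℝ) ^ r * |A e.1 - (∏ i, (gm (e.1 i) : ℝ)) * Real.sqrt (nv v) ^ e.1.degree| * Real.sqrt (nv v)
      = ((M.coeff e.1 : ℕ) : ℝ) * (nv v : ℝ) ^ r * (|A e.1 - (∏ i, (gm (e.1 i) : ℝ)) * Real.sqrt (nv v) ^ e.1.degree| * Real.sqrt (nv v)) := by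
        ring
    _ ≤ ((M.coeff e.1 : ℕ) : ℝ) * (nv v : ℝ) ^ r * (c e * Real.sqrt (nv v) ^ e.1.degree) :=
        mul_le_mul_of_nonneg_left h6 (by positivity)
    _ = _ := by ring

/-- The data of the abstract theorem. -/
theorem exists_fam {w : ℕ} {M : MvPolynomial I ℕ} (hM : IsWt w M) (hB : Big 𝓕 M) :
    ∃ 𝓐 : Fam K (Σ i, J i), 𝓐.a = av 𝓕 w M ∧ 𝓐.h = (w : ℝ) / 2 ∧ 𝓐.R = gaussRank M := by
  obtain ⟨C, hC0, hC⟩ := mean_av 𝓕 hM hB
  exact ⟨Fam.mk (av 𝓕 w M) ((w : ℝ) / 2) (DM 𝓕 M) C (gaussRank M) {v : HeightOneSpectrum (𝓞 K) | N0 𝓕 ∈ v.asIdeal}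
    (by positivity) (DM_nonneg 𝓕 M) hC0 (finite_bad 𝓕) (av_le 𝓕 hM) hC, rfl, rfl, rfl⟩

/-! ### the Euler factors -/

theorem goodAt_iff (v : HeightOneSpectrum (𝓞 K)) (t : (Σ i, J i) → 𝓞 K) (i : I) :
    GoodAt (curve 𝓕 t i) v ↔ ringChar (kv v) ≠ 2 ∧ (fp 𝓕 v (rd v t) i).Separable := by
  have e : (curve 𝓕 t i).map (Ideal.Quotient.mk v.asIdeal) = fp 𝓕 v (rd v t) i := map_member (𝓕 i) v _
  unfold GoodAt
  rw [e]
  refine and_congr_left fun _ => ?_
  rw [← not_iff_not, not_not, not_not, ← Ideal.Quotient.eq_zero_iff_mem, map_ofNat]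
  constructor
  · intro h
    by_contra hne
    exact Run7.h876.MM.two_ne (k := kv v) hne h
  · exact fun h => ring_char_two h

theorem factor_eq [Nonempty I] (w : ℕ) (M : MvPolynomial I ℕ) (t : (Σ i, J i) → 𝓞 K) (v : HeightOneSpectrum (𝓞 K)) (s : ℂ) :
    factor 𝓕 w M t v s = Complex.exp (ell (fun m => (av 𝓕 w M v (rd v t) m : ℂ)) (xv v s)) := by
  classical
  have hiff : (∀ i, GoodAt (curve 𝓕 t i) v) ↔ ringChar (kv v) ≠ 2 ∧ Gd 𝓕 v (rd v t) := by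
    constructor
    · intro h
      refine ⟨((goodAt_iff 𝓕 v t (Classical.arbitrary I)).1 (h _)).1, fun i => ((goodAt_iff 𝓕 v t i).1 (h i)).2⟩
    · rintro ⟨h1, h2⟩ i
      exact (goodAt_iff 𝓕 v t i).2 ⟨h1, h2 i⟩
  unfold factor
  by_cases h : ∀ i, GoodAt (curve 𝓕 t i) v
  · rw [if_pos h]
    obtain ⟨h1, h2⟩ := hiff.1 h
    unfold ell
    congr 2
    funext m
    have h3 : ∀ i, frobTrace (curve 𝓕 t i) v (m + 1) = trc (fp 𝓕 v (rd v t) i) m := by
      intro i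
      have e : (curve 𝓕 t i).map (Ideal.Quotient.mk v.asIdeal) = fp 𝓕 v (rd v t) i := map_member (𝓕 i) v _
      unfold frobTrace
      rw [trc_eq h1 (h2 i), card_kv, e, show (fp 𝓕 v (rd v t) i).natDegree = (curve 𝓕 t i).natDegree from by
        rw [show (fp 𝓕 v (rd v t) i).natDegree = (𝓕 i).F₀.natDegree from (fpol_monic (𝓕 i) v _).2]
        exact (member_monic (𝓕 i) _).2.symm]
    have h4 : (fun i => frobTrace (curve 𝓕 t i) v (m + 1)) = fun i => trc (fp 𝓕 v (rd v t) i) m := funext h3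
    rw [h4]
    unfold av xv
    simp only
    rw [if_pos (hiff.1 h)]
    push_cast
    rfl
  · rw [if_neg h]
    have h0 : (fun m => (av 𝓕 w M v (rd v t) m : ℂ)) = fun _ => 0 := by
      funext m
      unfold av
      rw [if_neg fun hc => h (hiff.2 hc), Complex.ofReal_zero]
    rw [h0]
    unfold ell
    simp

/-! ### singular members -/

theorem member_update {J' : Type} [Fintype J'] [DecidableEq J'] (𝓖 : Family K J') (t : J' → 𝓞 K) (j₀ : J') (b : 𝓞 K) :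
    𝓖.member (Function.update t j₀ b) = 𝓖.member (Function.update t j₀ 0) + C b * 𝓖.P j₀ := by
  unfold Family.member
  rw [← Finset.add_sum_erase _ _ (Finset.mem_univ j₀), ← Finset.add_sum_erase Finset.univ
    (fun j => C (Function.update t j₀ 0 j) * 𝓖.P j) (Finset.mem_univ j₀)]
  have h1 : ∑ j ∈ Finset.univ.erase j₀, C (Function.update t j₀ b j) * 𝓖.P j =
      ∑ j ∈ Finset.univ.erase j₀, C (Function.update t j₀ 0 j) * 𝓖.P j := by
    refine Finset.sum_congr rfl fun j hj => ?_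
    rw [Function.update_of_ne (Finset.ne_of_mem_erase hj), Function.update_of_ne (Finset.ne_of_mem_erase hj)]
  rw [h1, Function.update_self, Function.update_self, C_0]
  ring

variable {ι : Type} [Fintype ι] [DecidableEq ι] (ω : Module.Basis ι ℤ (𝓞 K))

theorem thin_one (i : I) : Thin ω {t : (Σ i, J i) → 𝓞 K | ((curve 𝓕 t i).map (algebraMap (𝓞 K) K)).Separable}
    (((𝓕 i).F₀.natDegree : ℕ) : ℝ) := by
  classical
  have : Nonempty ι := Fintype.card_pos_iff.1 (card_iota_pos ω)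
  have h3 := (𝓕 i).deg_three
  set j₀ : J i := (𝓕 i).e ⟨0, (𝓕 i).N_pos⟩ with hj₀
  refine thin_of_fiber ω _ (⟨i, j₀⟩ : Σ i, J i) ((𝓕 i).F₀.natDegree) fun t B hB => ?_
  set φ : 𝓞 K →+* K := algebraMap (𝓞 K) K with hφ
  have hinj : Function.Injective φ := NumberField.RingOfIntegers.coe_injective
  have hP : (𝓕 i).P j₀ = 1 := by rw [hj₀, (𝓕 i).P_e, pow_zero]
  have hcurve : ∀ b : 𝓞 K, curve 𝓕 (Function.update t (⟨i, j₀⟩ : Σ i, J i) b) i =
      (𝓕 i).member (Function.update (fun j => t ⟨i, j⟩) j₀ b) := by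
    intro b
    unfold curve
    congr 1
    funext j
    by_cases hj : j = j₀
    · subst hj; rw [Function.update_self, Function.update_self]
    · rw [Function.update_of_ne hj, Function.update_of_ne]
      intro h
      exact hj (eq_of_heq (Sigma.mk.inj h).2)
  set V : K[X] := ((𝓕 i).member (Function.update (fun j => t ⟨i, j⟩) j₀ 0)).map φ with hV
  have hm := member_monic (𝓕 i) (Function.update (fun j => t ⟨i, j⟩) j₀ 0)
  have hVm : V.Monic := hm.1.map φ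
  have hVd : V.natDegree = (𝓕 i).F₀.natDegree := by rw [hV, hm.1.natDegree_map, hm.2]
  have hmR : mR (∅ : Finset K) = 1 := by unfold mR; simp
  have h := nonsep_fiber hVm (R := ∅) (by rw [hVd, Finset.card_empty]; omega) (fun x hx => absurd hx (by simp)) (by
      rw [hVd, Finset.card_empty, Nat.sub_zero]
      exact_mod_cast (by omega : (𝓕 i).F₀.natDegree ≠ 0)) (B.image φ) (fun b hb => by
      obtain ⟨b', hb', rfl⟩ := Finset.mem_image.1 hb
      have h1 := hB b' hb'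
      intro h2
      apply h1
      show ((curve 𝓕 (Function.update t (⟨i, j₀⟩ : Σ i, J i) b') i).map φ).Separable
      rw [hcurve, member_update, hP, mul_one, Polynomial.map_add, Polynomial.map_C]
      rw [hmR, one_mul] at h2
      exact h2)
  rw [Finset.card_image_of_injective _ hinj, hVd, Finset.card_empty, add_zero] at h
  exact h

theorem thin_smooth : Thin ω (smooth 𝓕) (∑ i, (((𝓕 i).F₀.natDegree : ℕ) : ℝ)) := by
  classical
  intro H M hH
  have h1 : (((box ι H).filter fun c => ¬ (tuple ω c ∈ smooth 𝓕)).card : ℝ) ≤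
      ∑ i, (((box ι H).filter fun c => ¬ (tuple ω c ∈ {t : (Σ i, J i) → 𝓞 K |
        ((curve 𝓕 t i).map (algebraMap (𝓞 K) K)).Separable})).card : ℝ) := by
    have h2 : ((box ι H).filter fun c => ¬ (tuple ω c ∈ smooth 𝓕)) ⊆
        Finset.univ.biUnion fun i => ((box ι H).filter fun c => ¬ (tuple ω c ∈ {t : (Σ i, J i) → 𝓞 K |
        ((curve 𝓕 t i).map (algebraMap (𝓞 K) K)).Separable})) := by
      intro c hc
      obtain ⟨hc1, hc2⟩ := Finset.mem_filter.1 hc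
      have hc3 : ¬ ∀ i, ((curve 𝓕 (tuple ω c) i).map (algebraMap (𝓞 K) K)).Separable := hc2
      push Not at hc3
      obtain ⟨i, hi⟩ := hc3
      exact Finset.mem_biUnion.2 ⟨i, Finset.mem_univ _, Finset.mem_filter.2 ⟨hc1, hi⟩⟩
    have h3 := (Finset.card_le_card h2).trans Finset.card_biUnion_le
    exact_mod_cast h3
  calc _ ≤ (∑ i, (((box ι H).filter fun c => ¬ (tuple ω c ∈ {t : (Σ i, J i) → 𝓞 K |
        ((curve 𝓕 t i).map (algebraMap (𝓞 K) K)).Separable})).card : ℝ)) * (2 * M + 1) :=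
        mul_le_mul_of_nonneg_right h1 (by positivity)
    _ ≤ _ := by
        rw [Finset.sum_mul, Finset.sum_mul]
        exact Finset.sum_le_sum fun i _ => thin_one 𝓕 ω i H M hH

end

end Run7.h61.MO
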