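import Pool.Agent.Run7.h61.MO.Chi

/-!
# The moments of the traces of Frobenius in the family `y² = U(x) + ∑ t_n x ^ n`
-/

set_option autoImplicit false
set_option linter.unusedSectionVars false

namespace Run7.h61.MO

open Finset Polynomial
open Pool.Agent.H341R2.Sharp
open Run7.h876.EN

section
variable {k : Type} [Field k] [Fintype k] [DecidableEq k]

theorem gfam_monic {N : ℕ} {U : k[X]} (hU : U.Monic) (hN : N ≤ U.natDegree) (t : Fin N → k) :
    (gfam N U t).Monic ∧ (gfam N U t).natDegree = U.natDegree := by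
  have h1 : (∑ n : Fin N, C (t n) * X ^ (n : ℕ)).degree < U.degree := by
    refine (degree_sum_fin_lt t).trans_le ?_
    rw [degree_eq_natDegree hU.ne_zero]
    exact_mod_cast hN
  exact ⟨hU.add_of_left h1, natDegree_eq_of_degree_eq (degree_add_eq_left_of_degree_lt h1)⟩

theorem gfam_coeff {N : ℕ} (U : k[X]) (t : Fin N → k) (n : Fin N) : (gfam N U t).coeff n = U.coeff n + t n := by
  unfold gfam
  rw [coeff_add, finsetSum_coeff]
  congr 1
  simp only [coeff_C_mul_X_pow]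
  rw [Finset.sum_eq_single n]
  · rw [if_pos rfl]
  · intro b _ hb
    rw [if_neg]
    intro h
    exact hb (Fin.ext h.symm)
  · intro h
    exact absurd (Finset.mem_univ _) h

theorem gfam_inj {N : ℕ} (U : k[X]) {t t' : Fin N → k} (h : gfam N U t = gfam N U t') : t = t' := by
  funext n
  have h1 := gfam_coeff U t n
  rw [h, gfam_coeff U t' n] at h1
  exact (add_left_cancel h1).symm

theorem card_fun_eq (N : ℕ) : (∑ _t : Fin N → k, (1 : ℝ)) = (Fintype.card k : ℝ) ^ N := by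
  rw [Finset.sum_const, Finset.card_univ, Fintype.card_fun, Fintype.card_fin, nsmul_eq_mul, mul_one]
  push_cast; rfl

open Classical in
/-- **Non-separable members.** -/
theorem card_bad {N : ℕ} (hN1 : 1 ≤ N) {U : k[X]} (hU : U.Monic) (hN : N ≤ U.natDegree) (hd : 2 ≤ U.natDegree)
    (hp : ((U.natDegree : ℕ) : k) ≠ 0) :
    (#{t : Fin N → k | ¬ (gfam N U t).Separable} : ℝ) * Fintype.card k ≤ U.natDegree * (Fintype.card k : ℝ) ^ N := by
  have hd1 : (1 : k[X]).natDegree < N := by rw [natDegree_one]; omega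
  have h1 := sum_shift (R := ℝ) (fun t : Fin N → k => if ¬ (gfam N U t).Separable then (1 : ℝ) else 0)
    (fun i : Fin N => (1 : k[X]).coeff i)
  have h2 : (#{t : Fin N → k | ¬ (gfam N U t).Separable} : ℝ) =
      ∑ t : Fin N → k, if ¬ (gfam N U t).Separable then (1 : ℝ) else 0 := by
    rw [Finset.sum_ite, Finset.sum_const_zero, add_zero, Finset.sum_const, nsmul_eq_mul, mul_one]
  rw [h2, mul_comm, h1, ← card_fun_eq (k := k) N, Finset.mul_sum]
  refine Finset.sum_le_sum fun t _ => ?_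
  rw [mul_one]
  obtain ⟨g1, g2⟩ := gfam_monic hU hN t
  have hm : mR (∅ : Finset k) = 1 := by unfold mR; simp
  have h3 := nonsep_fiber g1 (R := ∅) (by rw [g2, Finset.card_empty]; omega) (fun x hx => absurd hx (by simp))
    (by rw [g2, Finset.card_empty, Nat.sub_zero]; exact hp)
    (Finset.univ.filter fun c : k => ¬ (gfam N U t + mR ∅ * C c).Separable) (fun c hc => (Finset.mem_filter.1 hc).2)
  rw [g2, Finset.card_empty, add_zero] at h3
  have h4 : ∑ c : k, (if ¬ (gfam N U (t + c • fun i : Fin N => (1 : k[X]).coeff i)).Separable then (1 : ℝ) else 0) =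
      ((Finset.univ.filter fun c : k => ¬ (gfam N U t + mR ∅ * C c).Separable).card : ℝ) := by
    rw [Finset.sum_congr rfl fun c _ => by rw [gfam_shift U hd1, mul_one]]
    rw [Finset.sum_ite, Finset.sum_const_zero, add_zero, Finset.sum_const, nsmul_eq_mul, mul_one]
    simp only [hm, one_mul]
  rw [h4]
  exact_mod_cast h3

open Classical in
/-- **Squares.** -/
theorem card_sq (hk : ringChar k ≠ 2) {N : ℕ} {U : k[X]} (hU : U.Monic) (hN : N ≤ U.natDegree) {g : ℕ}
    (hg : U.natDegree = 2 * g) :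
    #{t : Fin N → k | IsCSq (gfam N U t)} ≤ (Fintype.card k) ^ (N - g) := by
  have h2 : (2 : k) ≠ 0 := Ring.two_ne_zero hk
  have hex : ∀ t ∈ ({t : Fin N → k | IsCSq (gfam N U t)} : Finset (Fin N → k)), ∃ f : k[X], f.Monic ∧ gfam N U t = f ^ 2 := by
    intro t ht
    exact IsCSq.monic (gfam_monic hU hN t).1 (Finset.mem_filter.1 ht).2
  choose! f hf1 hf2 using hex
  have hdeg : ∀ t ∈ ({t : Fin N → k | IsCSq (gfam N U t)} : Finset (Fin N → k)), (f t).natDegree = g := by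
    intro t ht
    have h3 := (gfam_monic hU hN t).2
    rw [hf2 t ht, natDegree_pow, hg] at h3
    omega
  have hinj : Set.InjOn (fun t => fun i : Fin (N - g) => (f t).coeff i)
      (({t : Fin N → k | IsCSq (gfam N U t)} : Finset (Fin N → k)) : Set (Fin N → k)) := by
    intro t ht t' ht' hs
    by_cases hft : f t = f t'
    · refine gfam_inj U ?_
      rw [hf2 t ht, hf2 t' ht', hft]
    exfalso
    have e1 : (f t - f t') * (f t + f t') = ∑ n : Fin N, C (t n - t' n) * X ^ (n : ℕ) := by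
      have e2 : (f t - f t') * (f t + f t') = gfam N U t - gfam N U t' := by
        rw [hf2 t ht, hf2 t' ht']; ring
      rw [e2]
      unfold gfam
      simp only [C_sub, sub_mul, Finset.sum_sub_distrib]
      ring
    have hne1 : f t - f t' ≠ 0 := sub_ne_zero.2 hft
    have hc : (f t + f t').coeff g = 2 := by
      have c1 := (hf1 t ht).coeff_natDegree
      have c2 := (hf1 t' ht').coeff_natDegree
      rw [hdeg t ht] at c1
      rw [hdeg t' ht'] at c2
      rw [coeff_add, c1, c2]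
      norm_num
    have hne2 : f t + f t' ≠ 0 := by
      intro h0
      rw [h0, coeff_zero] at hc
      exact h2 hc.symm
    have hg2 : g ≤ (f t + f t').natDegree := le_natDegree_of_ne_zero (by rw [hc]; exact h2)
    have hlt : (f t - f t').natDegree + (f t + f t').natDegree < N := by
      have h3 := degree_sum_fin_lt (fun n : Fin N => t n - t' n)
      rw [← e1] at h3
      rw [← natDegree_mul hne1 hne2]
      have h4 : (f t - f t') * (f t + f t') ≠ 0 := mul_ne_zero hne1 hne2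
      rw [degree_eq_natDegree h4] at h3
      exact_mod_cast h3
    have hl : (f t - f t').natDegree < N - g := by omega
    have h5 := congrFun hs ⟨(f t - f t').natDegree, hl⟩
    simp only at h5
    have h6 : (f t - f t').coeff (f t - f t').natDegree = 0 := by
      rw [coeff_sub, h5, sub_self]
    exact hne1 (leadingCoeff_eq_zero.1 h6)
  calc _ ≤ (Finset.univ : Finset (Fin (N - g) → k)).card :=
        Finset.card_le_card_of_injOn _ (fun _ _ => Finset.mem_coe.2 (Finset.mem_univ _)) hinj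
    _ = _ := by rw [Finset.card_univ, Fintype.card_fun, Fintype.card_fin]

open Classical in
/-- The number of the squares is small enough. -/
theorem card_sq' (hk : ringChar k ≠ 2) {N : ℕ} (hN1 : 1 ≤ N) {U : k[X]} (hU : U.Monic) (hN : N ≤ U.natDegree) {e : ℕ} (he : e ≤ N)
    (hed : e + 1 ≤ U.natDegree) :
    (#{t : Fin N → k | IsCSq (gfam N U t)} : ℝ) ≤ (Fintype.card k : ℝ) ^ N / Real.sqrt (Fintype.card k) ^ (e + 1) := by
  have hQ1 : 1 ≤ Real.sqrt (Fintype.card k) := one_le_sq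
  obtain ⟨Q, hQ⟩ : ∃ Q, Q = Real.sqrt (Fintype.card k) := ⟨_, rfl⟩
  have hQQ : Q ^ 2 = Fintype.card k := by rw [hQ, Real.sq_sqrt (by positivity)]
  rw [← hQ] at hQ1 ⊢
  have hQ0 : 0 < Q := by linarith
  rw [le_div_iff₀ (by positivity), ← hQQ, ← pow_mul]
  rcases Nat.even_or_odd' U.natDegree with ⟨g, hg | hg⟩
  · have h1 := card_sq hk hU hN hg
    have h2 : (#{t : Fin N → k | IsCSq (gfam N U t)} : ℝ) ≤ Q ^ (2 * (N - g)) := by
      rw [pow_mul, hQQ]
      exact_mod_cast h1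
    calc (#{t : Fin N → k | IsCSq (gfam N U t)} : ℝ) * Q ^ (e + 1) ≤ Q ^ (2 * (N - g)) * Q ^ (e + 1) :=
          mul_le_mul_of_nonneg_right h2 (by positivity)
      _ = Q ^ (2 * (N - g) + (e + 1)) := (pow_add _ _ _).symm
      _ ≤ Q ^ (2 * N) := pow_le_pow_right₀ hQ1 (by omega)
  · have h1 : #{t : Fin N → k | IsCSq (gfam N U t)} = 0 := by
      rw [Finset.card_eq_zero, Finset.filter_eq_empty_iff]
      intro t _ ht
      obtain ⟨f, _, hf2⟩ := IsCSq.monic (gfam_monic hU hN t).1 ht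
      have h3 := (gfam_monic hU hN t).2
      rw [hf2, natDegree_pow, hg] at h3
      omega
    rw [h1, Nat.cast_zero, zero_mul]
    positivity

end

/-- the `m`-th moment of the character sum -/
noncomputable def ES {k : Type} [Field k] [Fintype k] [DecidableEq k] (N : ℕ) (U : k[X]) (m : ℕ) : ℝ :=
  (∑ t : Fin N → k, (∑ x : k, (quadraticChar k ((gfam N U t).eval x) : ℝ)) ^ m) / (Fintype.card k : ℝ) ^ N

theorem mom_S' (m : ℕ) : ∃ C : ℝ, 0 ≤ C ∧ ∀ (k : Type) [Field k] [Fintype k] [DecidableEq k] (_ : ringChar k ≠ 2)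
    (N : ℕ) (U : k[X]) (_ : m ≤ N), |ES N U m - gm m * Real.sqrt (Fintype.card k) ^ m| * Real.sqrt (Fintype.card k) ≤
      C * Real.sqrt (Fintype.card k) ^ m := by
  obtain ⟨C, hC0, hC⟩ := asym' m
  refine ⟨m * (gm m + C) + C, by positivity, fun k _ _ _ hk N U hm => ?_⟩
  have h1 := mom_S hk U hm
  have h2 := hC (Fintype.card k) Fintype.card_pos
  have hQ1 : 1 ≤ Real.sqrt (Fintype.card k) := one_le_sq
  obtain ⟨Q, hQ⟩ : ∃ Q, Q = Real.sqrt (Fintype.card k) := ⟨_, rfl⟩
  have hQQ : (Fintype.card k : ℝ) = Q * Q := by rw [hQ, Real.mul_self_sqrt (by positivity)]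
  change |ES N U m - Rm (Fintype.card k) m| ≤ _ at h1
  rw [← hQ] at hQ1 h2 ⊢
  obtain ⟨R, hR⟩ : ∃ R, R = Rm (Fintype.card k) m := ⟨_, rfl⟩
  rw [← hR] at h1 h2
  rw [hQQ] at h1
  have hQ0 : 0 < Q := by linarith
  have hR1 : |R| ≤ (gm m + C) * Q ^ m := by
    have h3 : |R| ≤ |R - gm m * Q ^ m| + |gm m * Q ^ m| := by
      have := abs_add_le (R - gm m * Q ^ m) (gm m * Q ^ m)
      rwa [sub_add_cancel] at this
    have h4 : |R - gm m * Q ^ m| ≤ |R - gm m * Q ^ m| * Q := le_mul_of_one_le_right (abs_nonneg _) hQ1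
    rw [abs_of_nonneg (by positivity : (0 : ℝ) ≤ gm m * Q ^ m)] at h3
    rw [add_mul]
    linarith
  have h5 : |ES N U m - gm m * Q ^ m| ≤ |ES N U m - R| + |R - gm m * Q ^ m| := by
    have := abs_add_le (ES N U m - R) (R - gm m * Q ^ m)
    rwa [sub_add_sub_cancel] at this
  have h6 : |ES N U m - R| * Q ≤ m * ((gm m + C) * Q ^ m) := by
    have h7 : (m : ℝ) / (Q * Q) * R ≤ m / (Q * Q) * |R| := mul_le_mul_of_nonneg_left (le_abs_self R) (by positivity)
    calc |ES N U m - R| * Q ≤ (m / (Q * Q) * |R|) * Q := mul_le_mul_of_nonneg_right (h1.trans h7) hQ0.le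
      _ = (m / Q) * |R| := by field_simp
      _ ≤ m * |R| := by
        refine mul_le_mul_of_nonneg_right ?_ (abs_nonneg _)
        exact div_le_self (by positivity) hQ1
      _ ≤ _ := mul_le_mul_of_nonneg_left hR1 (by positivity)
  calc |ES N U m - gm m * Q ^ m| * Q ≤ (|ES N U m - R| + |R - gm m * Q ^ m|) * Q := mul_le_mul_of_nonneg_right h5 hQ0.le
    _ = |ES N U m - R| * Q + |R - gm m * Q ^ m| * Q := by ring
    _ ≤ m * ((gm m + C) * Q ^ m) + C * Q ^ m := add_le_add h6 h2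
    _ = _ := by ring

/-- **The moments of the traces of Frobenius.** -/
theorem mom_trc (d N e : ℕ) (hN1 : 1 ≤ N) (he : e ≤ N) (hed : e + 1 ≤ d) (hNd : N ≤ d) (hd : 2 ≤ d) :
    ∃ C : ℝ, 0 ≤ C ∧ ∀ (k : Type) [Field k] [Fintype k] [DecidableEq k] (_ : ringChar k ≠ 2) (_ : (d : k) ≠ 0)
    (U : k[X]) (_ : U.Monic) (_ : U.natDegree = d),
    |(∑ t : Fin N → k, (trc (gfam N U t) 0 : ℝ) ^ e) / (Fintype.card k : ℝ) ^ N - gm e * Real.sqrt (Fintype.card k) ^ e| *
      Real.sqrt (Fintype.card k) ≤ C * Real.sqrt (Fintype.card k) ^ e := by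
  rcases Nat.eq_zero_or_pos e with he0 | he0
  · subst he0
    refine ⟨0, le_rfl, fun k _ _ _ hk hp U hU hUd => ?_⟩
    simp only [pow_zero, mul_one, gm_zero, Nat.cast_one]
    rw [card_fun_eq, div_self (by positivity)]
    simp
  choose B hB0 hB using mom_S'
  set A : ℝ := B e + ∑ j ∈ range e, (e.choose j : ℝ) * (gm j + B j) + d * (5 * d + 1) ^ e + 2 ^ e with hA
  have hA0 : 0 ≤ A := by
    have h1 := hB0 e
    have h2 : 0 ≤ ∑ j ∈ range e, (e.choose j : ℝ) * (gm j + B j) := Finset.sum_nonneg fun j _ => by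
      have := hB0 j
      positivity
    rw [hA]
    positivity
  refine ⟨A, hA0, fun k _ _ _ hk hp U hU hUd => ?_⟩
  classical
  have hQ1 : 1 ≤ Real.sqrt (Fintype.card k) := one_le_sq
  obtain ⟨Q, hQ⟩ : ∃ Q, Q = Real.sqrt (Fintype.card k) := ⟨_, rfl⟩
  obtain ⟨q, hq⟩ : ∃ q : ℝ, q = Fintype.card k := ⟨_, rfl⟩
  have hQQ : q = Q * Q := by rw [hQ, hq, Real.mul_self_sqrt (by positivity)]
  have hQ0' : 0 < Q := by rw [hQ]; linarith
  have hq0 : 0 < q := by rw [hQQ]; positivity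
  obtain ⟨δ, hδ⟩ : ∃ δ : ℝ, δ = (dlt d : ℕ) := ⟨_, rfl⟩
  have hδ0 : 0 ≤ δ := by rw [hδ]; positivity
  have hδ1 : δ ≤ 1 := by rw [hδ]; exact_mod_cast dlt_le d
  have hfd : ∀ t, (gfam N U t).Monic ∧ (gfam N U t).natDegree = d := fun t => by
    have := gfam_monic hU (hUd ▸ hNd) t
    rwa [hUd] at this
  have hd1 : ∀ t, 1 ≤ (gfam N U t).natDegree := fun t => by rw [(hfd t).2]; omega
  set S : (Fin N → k) → ℝ := fun t => ∑ x : k, (quadraticChar k ((gfam N U t).eval x) : ℝ) with hS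
  have hTS : ∀ t, (T (gfam N U t) 1 : ℝ) = S t := by
    intro t
    rw [T_one hk, hS]
    push_cast
    rfl
  set Bad : Finset (Fin N → k) := {t : Fin N → k | ¬ (gfam N U t).Separable} with hBad
  set Sq : Finset (Fin N → k) := {t : Fin N → k | IsCSq (gfam N U t)} with hSq
  have hBadc : (Bad.card : ℝ) ≤ d * q ^ N / q := by
    have h := card_bad hN1 hU (hUd ▸ hNd) (by omega) (by rw [hUd]; exact hp)
    rw [hUd, ← hq] at h
    rwa [le_div_iff₀ hq0]
  have hSqc : (Sq.card : ℝ) ≤ q ^ N / Q ^ (e + 1) := by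
    have h := card_sq' hk hN1 hU (hUd ▸ hNd) he (by omega)
    rwa [← hQ, ← hq] at h
  have htr : ∀ t, (gfam N U t).Separable → (trc (gfam N U t) 0 : ℝ) = -(S t) - δ := by
    intro t hs
    unfold trc
    rw [if_pos hs, (hfd t).2, hδ, ← hTS t]
    push_cast; ring
  have htr0 : ∀ t ∈ Bad, (trc (gfam N U t) 0 : ℝ) = 0 := by
    intro t ht
    unfold trc
    rw [if_neg (Finset.mem_filter.1 ht).2, Int.cast_zero]
  have hsplit : ∑ t, (trc (gfam N U t) 0 : ℝ) ^ e = ∑ t, (-(S t) - δ) ^ e - ∑ t ∈ Bad, (-(S t) - δ) ^ e := by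
    rw [hBad, Finset.sum_filter, ← Finset.sum_sub_distrib]
    refine Finset.sum_congr rfl fun t _ => ?_
    by_cases hs : (gfam N U t).Separable
    · rw [if_neg (not_not.2 hs), htr t hs, sub_zero]
    · rw [if_pos hs, sub_self, htr0 t (Finset.mem_filter.2 ⟨Finset.mem_univ _, hs⟩), zero_pow (by omega)]
  have hbad : |∑ t ∈ Bad, (-(S t) - δ) ^ e| ≤ (d * q ^ N / q) * (((5 * d + 1) * Q) ^ e) + (q ^ N / Q ^ (e + 1)) * ((2 * q) ^ e) := by
    refine sum_bad_le Bad Sq (fun t => (-(S t) - δ) ^ e) _ _ _ _ (by positivity) (by positivity) hBadc hSqc ?_ ?_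
    · intro t _ ht
      have h1 := T_le_of hk (hfd t).1 (hd1 t) (fun h => ht (Finset.mem_filter.2 ⟨Finset.mem_univ _, h⟩)) 0
      rw [(hfd t).2, zero_add, pow_one, ← hQ, hTS] at h1
      rw [abs_pow]
      refine pow_le_pow_left₀ (abs_nonneg _) ?_ e
      refine (abs_sub _ _).trans ?_
      rw [abs_neg, abs_of_nonneg hδ0, add_mul, one_mul]
      linarith [hQ ▸ hQ1]
    · intro t _
      have h1 := T_trivial hk (gfam N U t) 1 le_rfl
      rw [pow_one, ← hq, hTS] at h1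
      rw [abs_pow]
      refine pow_le_pow_left₀ (abs_nonneg _) ?_ e
      refine (abs_sub _ _).trans ?_
      rw [abs_neg, abs_of_nonneg hδ0]
      have : 1 ≤ q := by
        rw [hQQ]
        rw [← hQ] at hQ1
        nlinarith
      linarith
  rw [← hQ, ← hq]
  rw [← hQ] at hQ1
  -- the main term
  have hmain : (∑ t, (-(S t) - δ) ^ e) / q ^ N = (-1) ^ e * (ES N U e + ∑ j ∈ range e, (e.choose j : ℝ) * δ ^ (e - j) * ES N U j) := by
    have e1 : ∀ t, (-(S t) - δ) ^ e = (-1) ^ e * (S t ^ e + ∑ j ∈ range e, (e.choose j : ℝ) * δ ^ (e - j) * S t ^ j) := by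
      intro t
      rw [show -(S t) - δ = (-1) * (S t + δ) from by ring, mul_pow, add_pow, Finset.sum_range_succ, Nat.sub_self, pow_zero,
        Nat.choose_self, Nat.cast_one, mul_one, mul_one, add_comm (∑ j ∈ range e, _) _]
      congr 2
      refine Finset.sum_congr rfl fun j _ => ?_
      ring
    have e2 : (∑ t, S t ^ e) / q ^ N = ES N U e := by
      unfold ES
      rw [hq]
    have e3 : (∑ t, ∑ j ∈ range e, (e.choose j : ℝ) * δ ^ (e - j) * S t ^ j) / q ^ N =
        ∑ j ∈ range e, (e.choose j : ℝ) * δ ^ (e - j) * ES N U j := by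
      rw [Finset.sum_comm, Finset.sum_div]
      refine Finset.sum_congr rfl fun j _ => ?_
      rw [← Finset.mul_sum, mul_div_assoc]
      unfold ES
      rw [hq]
    rw [Finset.sum_congr rfl fun t _ => e1 t, ← Finset.mul_sum, Finset.sum_add_distrib, mul_div_assoc, add_div, e2, e3]
  have hgm : (-1 : ℝ) ^ e * gm e = gm e := by
    rcases Nat.even_or_odd e with h | h
    · rw [h.neg_one_pow, one_mul]
    · rw [gm_odd h]; simp
  have hlow : ∀ j ∈ range e, |(e.choose j : ℝ) * δ ^ (e - j) * ES N U j| * Q ≤ (e.choose j : ℝ) * (gm j + B j) * Q ^ e := by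
    intro j hj
    have hj' := Finset.mem_range.1 hj
    have h1 := hB j k hk N U (by omega)
    rw [← hQ] at h1
    have hBj := hB0 j
    have h3 : |ES N U j| ≤ |ES N U j - gm j * Q ^ j| + |gm j * Q ^ j| := by
      have := abs_add_le (ES N U j - gm j * Q ^ j) (gm j * Q ^ j)
      rwa [sub_add_cancel] at this
    have h4 : |ES N U j - gm j * Q ^ j| ≤ |ES N U j - gm j * Q ^ j| * Q := le_mul_of_one_le_right (abs_nonneg _) hQ1
    rw [abs_of_nonneg (by positivity : (0 : ℝ) ≤ gm j * Q ^ j)] at h3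
    have h5 : |ES N U j| ≤ (gm j + B j) * Q ^ j := by rw [add_mul]; linarith
    have h6 : δ ^ (e - j) ≤ 1 := pow_le_one₀ hδ0 hδ1
    rw [abs_mul, abs_mul, abs_of_nonneg (by positivity : (0 : ℝ) ≤ (e.choose j : ℝ)), abs_of_nonneg (by positivity : 0 ≤ δ ^ (e - j))]
    calc (e.choose j : ℝ) * δ ^ (e - j) * |ES N U j| * Q ≤ (e.choose j : ℝ) * 1 * ((gm j + B j) * Q ^ j) * Q := by gcongr
      _ = (e.choose j : ℝ) * (gm j + B j) * Q ^ (j + 1) := by ring
      _ ≤ _ := mul_le_mul_of_nonneg_left (pow_le_pow_right₀ hQ1 (by omega)) (by positivity)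
  have hfin : (∑ t, (trc (gfam N U t) 0 : ℝ) ^ e) / q ^ N - gm e * Q ^ e =
      (-1) ^ e * ((ES N U e - gm e * Q ^ e) + ∑ j ∈ range e, (e.choose j : ℝ) * δ ^ (e - j) * ES N U j) -
      (∑ t ∈ Bad, (-(S t) - δ) ^ e) / q ^ N := by
    rw [hsplit, sub_div, hmain]
    linear_combination (Q ^ e) * hgm
  have h1 := hB e k hk N U he
  rw [← hQ] at h1
  have hN0 : 0 < q ^ N := by positivity
  have hQe : (0 : ℝ) < Q ^ e := by positivity
  have h2 : |(∑ t ∈ Bad, (-(S t) - δ) ^ e) / q ^ N| * Q ≤ (d * (5 * d + 1) ^ e + 2 ^ e) * Q ^ e := by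
    rw [abs_div, abs_of_pos hN0]
    have h3 : |∑ t ∈ Bad, (-(S t) - δ) ^ e| / q ^ N ≤
        ((d * q ^ N / q) * (((5 * d + 1) * Q) ^ e) + (q ^ N / Q ^ (e + 1)) * ((2 * q) ^ e)) / q ^ N := by
      gcongr
    refine (mul_le_mul_of_nonneg_right h3 hQ0'.le).trans ?_
    have e4 : ((d * q ^ N / q) * (((5 * d + 1) * Q) ^ e) + (q ^ N / Q ^ (e + 1)) * ((2 * q) ^ e)) / q ^ N * Q =
        d * (5 * d + 1) ^ e * Q ^ e * Q⁻¹ + 2 ^ e * Q ^ e := by
      have hqe : (2 * q) ^ e = 2 ^ e * (Q ^ e * Q ^ e) := by rw [mul_pow, hQQ, mul_pow]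
      rw [hqe, mul_pow, pow_succ]
      generalize q ^ N = M at hN0
      rw [hQQ]
      generalize Q ^ e = E at hQe
      field_simp
    rw [e4, add_mul]
    have h5 : Q⁻¹ ≤ 1 := inv_le_one_of_one_le₀ hQ1
    have h6 : (d : ℝ) * (5 * d + 1) ^ e * Q ^ e * Q⁻¹ ≤ d * (5 * d + 1) ^ e * Q ^ e * 1 :=
      mul_le_mul_of_nonneg_left h5 (by positivity)
    linarith
  rw [hfin, hA]
  have h7 : |(-1 : ℝ) ^ e * ((ES N U e - gm e * Q ^ e) + ∑ j ∈ range e, (e.choose j : ℝ) * δ ^ (e - j) * ES N U j)| ≤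
      |ES N U e - gm e * Q ^ e| + ∑ j ∈ range e, |(e.choose j : ℝ) * δ ^ (e - j) * ES N U j| := by
    rw [abs_mul, abs_pow, abs_neg, abs_one, one_pow, one_mul]
    exact (abs_add_le _ _).trans (add_le_add le_rfl (Finset.abs_sum_le_sum_abs _ _))
  calc _ ≤ (|ES N U e - gm e * Q ^ e| + ∑ j ∈ range e, |(e.choose j : ℝ) * δ ^ (e - j) * ES N U j| +
          |(∑ t ∈ Bad, (-(S t) - δ) ^ e) / q ^ N|) * Q := by
        refine mul_le_mul_of_nonneg_right ((abs_sub _ _).trans (add_le_add h7 le_rfl)) hQ0'.le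
    _ = |ES N U e - gm e * Q ^ e| * Q + ∑ j ∈ range e, |(e.choose j : ℝ) * δ ^ (e - j) * ES N U j| * Q +
          |(∑ t ∈ Bad, (-(S t) - δ) ^ e) / q ^ N| * Q := by
        rw [add_mul, add_mul, Finset.sum_mul]
    _ ≤ B e * Q ^ e + ∑ j ∈ range e, (e.choose j : ℝ) * (gm j + B j) * Q ^ e + (d * (5 * d + 1) ^ e + 2 ^ e) * Q ^ e :=
        add_le_add (add_le_add h1 (Finset.sum_le_sum hlow)) h2
    _ = _ := by rw [← Finset.sum_mul]; ring

end Run7.h61.MO
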